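import Pool.Agent.H461.Cyc.Pair

/-!
# Many points where the form is divisible by the power of a large number
-/

set_option autoImplicit false

namespace Pool.Agent.H461.Cyc

open Finset Polynomial
open Pool.Agent.Y670.RD Pool.Agent.H461.Fam Pool.Agent.H461.Low

theorem union_card {α β : Type} [DecidableEq β] (I : Finset α) (S : α → Finset β) (K : ℕ)
    (h : ∀ x ∈ I.biUnion S, (I.filter (fun i => x ∈ S i)).card ≤ K) :
    ∑ i ∈ I, (S i).card ≤ K * (I.biUnion S).card := by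
  classical
  have h1 : ∑ i ∈ I, (S i).card = ∑ i ∈ I, ∑ x ∈ I.biUnion S, (if x ∈ S i then 1 else 0) := by
    refine sum_congr rfl fun i hi => ?_
    rw [← card_filter]
    congr 1
    ext x
    rw [mem_filter]
    exact ⟨fun h => ⟨mem_biUnion.2 ⟨i, hi, h⟩, h⟩, fun h => h.2⟩
  rw [h1, sum_comm]
  calc ∑ x ∈ I.biUnion S, ∑ i ∈ I, (if x ∈ S i then 1 else 0) ≤ ∑ x ∈ I.biUnion S, K := by
        refine sum_le_sum fun x hx => ?_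
        rw [← card_filter]
        exact h x hx
    _ = K * (I.biUnion S).card := by rw [sum_const, smul_eq_mul, mul_comm]

/-- roots modulo powers of two primes -/
theorem pair_root (f g₁ g₂ : ℤ[X]) (hg₁ : Irreducible (g₁.map (Int.castRingHom ℚ)))
    (hg₂ : Irreducible (g₂.map (Int.castRingHom ℚ)))
    (h₁ : g₁.map (Int.castRingHom ℚ) ∣ f.map (Int.castRingHom ℚ))
    (h₂ : g₂.map (Int.castRingHom ℚ) ∣ f.map (Int.castRingHom ℚ)) (m : ℕ) :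
    ∃ M : ℕ, 1 ≤ M ∧ ∀ (p₁ p₂ : ℕ), p₁.Prime → p₂.Prime → p₁ ≠ p₂ → ¬ p₁ ∣ M → ¬ p₂ ∣ M →
      (∃ r : ℤ, (p₁ : ℤ) ∣ g₁.eval r) → (∃ r : ℤ, (p₂ : ℤ) ∣ g₂.eval r) →
      ∃ ρ : ℤ, (p₁ : ℤ) ^ m ∣ g₁.eval ρ ∧ (p₂ : ℤ) ^ m ∣ g₂.eval ρ ∧
        (((p₁ * p₂) ^ m : ℕ) : ℤ) ∣ f.eval ρ := by
  obtain ⟨M₁, hM₁, h3⟩ := prime_lift f g₁ hg₁ h₁
  obtain ⟨M₂, hM₂, h4⟩ := prime_lift f g₂ hg₂ h₂
  refine ⟨M₁ * M₂, Nat.mul_pos hM₁ hM₂, fun p₁ p₂ hp₁ hp₂ hne hd₁ hd₂ hr₁ hr₂ => ?_⟩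
  obtain ⟨ρ₁, a1, a2⟩ := h3 p₁ hp₁ (fun h => hd₁ (h.mul_right _)) hr₁ m
  obtain ⟨ρ₂, b1, b2⟩ := h4 p₂ hp₂ (fun h => hd₂ (h.mul_left _)) hr₂ m
  have hcop : IsCoprime ((p₁ : ℤ) ^ m) ((p₂ : ℤ) ^ m) := by
    apply IsCoprime.pow
    exact Nat.isCoprime_iff_coprime.2 ((Nat.coprime_primes hp₁ hp₂).2 hne)
  obtain ⟨s, t, hst⟩ := hcop
  have c1 : (p₁ : ℤ) ^ m ∣ (ρ₁ * (t * (p₂ : ℤ) ^ m) + ρ₂ * (s * (p₁ : ℤ) ^ m)) - ρ₁ :=
    ⟨s * (ρ₂ - ρ₁), by linear_combination ρ₁ * hst⟩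
  have c2 : (p₂ : ℤ) ^ m ∣ (ρ₁ * (t * (p₂ : ℤ) ^ m) + ρ₂ * (s * (p₁ : ℤ) ^ m)) - ρ₂ :=
    ⟨t * (ρ₁ - ρ₂), by linear_combination ρ₂ * hst⟩
  have key : ∀ (D ρ ρ' : ℤ) (g : ℤ[X]), D ∣ ρ' - ρ → D ∣ g.eval ρ → D ∣ g.eval ρ' := by
    intro D ρ ρ' g h5 h6
    have h7 := dvd_add (h5.trans (sub_dvd_eval_sub ρ' ρ g)) h6
    rwa [sub_add_cancel] at h7
  refine ⟨ρ₁ * (t * (p₂ : ℤ) ^ m) + ρ₂ * (s * (p₁ : ℤ) ^ m), key _ _ _ _ c1 a1,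
    key _ _ _ _ c2 b1, ?_⟩
  push_cast
  rw [mul_pow]
  exact IsCoprime.mul_dvd ⟨s, t, hst⟩ (key _ _ _ _ c1 a2) (key _ _ _ _ c2 b2)

/-- few pairs of primes have a short vector -/
theorem few_bad (g₁ g₂ : ℤ[X]) (m : ℕ) (hm : 1 ≤ m) (W₁ W₂ : Finset ℕ) (N K : ℕ) (lam Cg : ℝ)
    (hdeg₁ : g₁.natDegree ≤ K) (hdeg₂ : g₂.natDegree ≤ K) (hd₁ : 1 ≤ g₁.natDegree)
    (hd₂ : 1 ≤ g₂.natDegree)
    (hC₁ : ∑ i ∈ range (g₁.natDegree + 1), |(g₁.coeff i : ℝ)| ≤ Cg)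
    (hC₂ : ∑ i ∈ range (g₂.natDegree + 1), |(g₂.coeff i : ℝ)| ≤ Cg) (hCg : 1 ≤ Cg)
    (hlam : 1 ≤ lam) (hN : Cg * lam < N)
    (hW₁ : ∀ p ∈ W₁, p.Prime ∧ N < p) (hW₂ : ∀ p ∈ W₂, p.Prime ∧ N < p)
    (hno : (∀ x y : ℤ, ¬ (x = 0 ∧ y = 0) → fv g₁.natDegree g₁ x y ≠ 0 ∧
        fv g₂.natDegree g₂ x y ≠ 0) ∨
      (g₁.natDegree = 1 ∧ g₂.natDegree = 1 ∧ ∀ x y : ℤ, ¬ (x = 0 ∧ y = 0) →
        ¬ (fv g₁.natDegree g₁ x y = 0 ∧ fv g₂.natDegree g₂ x y = 0)))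
    (bad : Finset (ℕ × ℕ)) (hbad : ∀ p ∈ bad, p.1 ∈ W₁ ∧ p.2 ∈ W₂ ∧ ∃ x y : ℤ,
      ¬ (x = 0 ∧ y = 0) ∧ max |(x : ℝ)| |(y : ℝ)| < lam ∧ (p.1 : ℤ) ^ m ∣ fv g₁.natDegree g₁ x y ∧
      (p.2 : ℤ) ^ m ∣ fv g₂.natDegree g₂ x y) :
    (bad.card : ℝ) ≤ 9 * K ^ 2 * lam ^ 2 := by
  classical
  have hlam0 : 0 < lam := by linarith
  have hN0 : (0 : ℝ) < N := lt_trans (by positivity) hN
  set L : ℤ := ⌊lam⌋ with hL
  have hL0 : 0 ≤ L := Int.floor_nonneg.2 hlam0.le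
  have hLl : (L : ℝ) ≤ lam := Int.floor_le _
  set V : Finset (ℤ × ℤ) := (Icc (-L) L ×ˢ Icc (-L) L).filter (fun v => ¬ (v.1 = 0 ∧ v.2 = 0)) with hV
  have hVc : (V.card : ℝ) ≤ 9 * lam ^ 2 := by
    have h1 : V.card ≤ (Icc (-L) L ×ˢ Icc (-L) L).card := card_filter_le _ _
    rw [card_product, Int.card_Icc] at h1
    have h2 : ((((L + 1 - -L).toNat : ℕ) : ℤ) : ℝ) = 2 * L + 1 := by
      rw [Int.toNat_of_nonneg (by omega)]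
      push_cast
      ring
    have h3 : (((L + 1 - -L).toNat : ℕ) : ℝ) = 2 * L + 1 := by exact_mod_cast h2
    have h4 : (V.card : ℝ) ≤ (2 * L + 1) * (2 * L + 1) := by
      rw [← h3]
      exact_mod_cast h1
    have hL0R : (0 : ℝ) ≤ L := by exact_mod_cast hL0
    have h5 : (2 * (L : ℝ) + 1) ≤ 3 * lam := by linarith
    calc (V.card : ℝ) ≤ (2 * L + 1) * (2 * L + 1) := h4
      _ ≤ (3 * lam) * (3 * lam) := mul_le_mul h5 h5 (by linarith) (by positivity)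
      _ = 9 * lam ^ 2 := by ring
  -- the pairs for one vector
  let fb : ℤ × ℤ → Finset (ℕ × ℕ) := fun v =>
    (W₁.filter (fun p : ℕ => (p : ℤ) ^ m ∣ fv g₁.natDegree g₁ v.1 v.2)) ×ˢ
      (W₂.filter (fun p : ℕ => (p : ℤ) ^ m ∣ fv g₂.natDegree g₂ v.1 v.2))
  have hsize : ∀ (g : ℤ[X]) (x y : ℤ), 1 ≤ g.natDegree →
      ∑ i ∈ range (g.natDegree + 1), |(g.coeff i : ℝ)| ≤ Cg → max |(x : ℝ)| |(y : ℝ)| ≤ lam →
      |(fv g.natDegree g x y : ℝ)| ≤ (Cg * lam) ^ g.natDegree := by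
    intro g x y hg hC hxy
    refine (fv_le _ _ _ _).trans ?_
    have h0 : 0 ≤ max |(x : ℝ)| |(y : ℝ)| := le_max_of_le_left (abs_nonneg _)
    rw [mul_pow]
    refine mul_le_mul (hC.trans ?_) (pow_le_pow_left₀ h0 hxy _) (by positivity) (by positivity)
    exact le_self_pow₀ hCg (by omega)
  have hvan : ∀ (g : ℤ[X]) (W : Finset ℕ) (x y : ℤ), g.natDegree = 1 → 
      ∑ i ∈ range (g.natDegree + 1), |(g.coeff i : ℝ)| ≤ Cg → max |(x : ℝ)| |(y : ℝ)| ≤ lam →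
      (∀ p ∈ W, p.Prime ∧ N < p) → fv g.natDegree g x y ≠ 0 → ∀ p ∈ W,
      ¬ (p : ℤ) ^ m ∣ fv g.natDegree g x y := by
    intro g W x y hg hC hxy hW hv p hp hd
    have h1 := hsize g x y hg.ge hC hxy
    rw [hg, pow_one] at h1
    rw [hg] at hv hd
    have h2 : (p : ℤ) ∣ fv 1 g x y := (dvd_pow_self _ (by omega)).trans hd
    have h3 := Int.le_of_dvd (abs_pos.2 hv) ((dvd_abs _ _).2 h2)
    have h4 : (p : ℝ) ≤ |(fv 1 g x y : ℝ)| := by exact_mod_cast h3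
    have h5 : (N : ℝ) < p := by exact_mod_cast (hW p hp).2
    linarith
  have hfb : ∀ v ∈ V, (fb v).card ≤ K ^ 2 := by
    intro v hv
    rw [hV, mem_filter, mem_product, mem_Icc, mem_Icc] at hv
    obtain ⟨⟨⟨a1, a2⟩, a3, a4⟩, a5⟩ := hv
    have hmax : max |(v.1 : ℝ)| |(v.2 : ℝ)| ≤ lam := by
      apply max_le
      · exact (by exact_mod_cast abs_le.2 ⟨a1, a2⟩ : |(v.1 : ℝ)| ≤ L).trans hLl
      · exact (by exact_mod_cast abs_le.2 ⟨a3, a4⟩ : |(v.2 : ℝ)| ≤ L).trans hLl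
    have hcase : fb v = ∅ ∨ (fv g₁.natDegree g₁ v.1 v.2 ≠ 0 ∧ fv g₂.natDegree g₂ v.1 v.2 ≠ 0) := by
      rcases hno with h | ⟨e1, e2, h⟩
      · right; exact h v.1 v.2 a5
      · by_cases z1 : fv g₁.natDegree g₁ v.1 v.2 = 0
        · left
          have z2 : fv g₂.natDegree g₂ v.1 v.2 ≠ 0 := fun h2 => h v.1 v.2 a5 ⟨z1, h2⟩
          apply product_eq_empty.2
          right
          rw [filter_eq_empty_iff]
          intro p hp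
          exact hvan g₂ W₂ v.1 v.2 e2 hC₂ hmax hW₂ z2 p hp
        by_cases z2 : fv g₂.natDegree g₂ v.1 v.2 = 0
        · left
          apply product_eq_empty.2
          left
          rw [filter_eq_empty_iff]
          intro p hp
          exact hvan g₁ W₁ v.1 v.2 e1 hC₁ hmax hW₁ z1 p hp
        · right; exact ⟨z1, z2⟩
    rcases hcase with h | ⟨z1, z2⟩
    · rw [h, card_empty]
      exact Nat.zero_le _
    have hone : ∀ (g : ℤ[X]) (W : Finset ℕ), 1 ≤ g.natDegree → g.natDegree ≤ K →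
        ∑ i ∈ range (g.natDegree + 1), |(g.coeff i : ℝ)| ≤ Cg →
        (∀ p ∈ W, p.Prime ∧ N < p) → fv g.natDegree g v.1 v.2 ≠ 0 →
        (W.filter (fun p : ℕ => (p : ℤ) ^ m ∣ fv g.natDegree g v.1 v.2)).card ≤ K := by
      intro g W hg hgK hC hW hz
      refine few_primes _ hz N K ?_ _ ?_
      · have h1N : (1 : ℝ) ≤ N := by
          have : 1 ≤ Cg * lam := one_le_mul_of_one_le_of_one_le hCg hlam
          linarith
        calc |(fv g.natDegree g v.1 v.2 : ℝ)| ≤ (Cg * lam) ^ g.natDegree :=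
              hsize g v.1 v.2 hg hC hmax
          _ < (N : ℝ) ^ g.natDegree := pow_lt_pow_left₀ hN (by positivity) (by omega)
          _ ≤ (N : ℝ) ^ (K + 1) := pow_le_pow_right₀ h1N (by omega)
      · intro p hp
        rw [mem_filter] at hp
        exact ⟨(hW p hp.1).1, (hW p hp.1).2, (dvd_pow_self _ (by omega)).trans hp.2⟩
    show ((W₁.filter _) ×ˢ (W₂.filter _)).card ≤ K ^ 2
    rw [card_product, sq]
    exact Nat.mul_le_mul (hone g₁ W₁ hd₁ hdeg₁ hC₁ hW₁ z1) (hone g₂ W₂ hd₂ hdeg₂ hC₂ hW₂ z2)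
  have hsub : bad ⊆ V.biUnion fb := by
    intro p hp
    obtain ⟨b1, b2, x, y, b3, b4, b5, b6⟩ := hbad p hp
    rw [mem_biUnion]
    refine ⟨(x, y), ?_, ?_⟩
    · rw [hV, mem_filter, mem_product, mem_Icc, mem_Icc]
      have c1 : |x| ≤ L := by
        rw [hL, Int.le_floor]
        have := (le_max_left _ _).trans b4.le
        exact_mod_cast this
      have c2 : |y| ≤ L := by
        rw [hL, Int.le_floor]
        have := (le_max_right _ _).trans b4.le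
        exact_mod_cast this
      exact ⟨⟨abs_le.1 c1, abs_le.1 c2⟩, b3⟩
    · exact mem_product.2 ⟨mem_filter.2 ⟨b1, b5⟩, mem_filter.2 ⟨b2, b6⟩⟩
  have h1 : bad.card ≤ V.card * K ^ 2 :=
    (card_le_card hsub).trans (card_biUnion_le_card_mul _ _ _ hfb)
  have h2 : (bad.card : ℝ) ≤ V.card * (K : ℝ) ^ 2 := by exact_mod_cast h1
  calc (bad.card : ℝ) ≤ V.card * (K : ℝ) ^ 2 := h2
    _ ≤ (9 * lam ^ 2) * (K : ℝ) ^ 2 := mul_le_mul_of_nonneg_right hVc (by positivity)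
    _ = _ := by ring

end Pool.Agent.H461.Cyc
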