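import Pool.Graph.R_seed8.H813R3.Voj.DiscM2
import Pool.Graph.R_seed8.W4.VC.All
import Pool.Graph.R_pool_sql_team_seeded_620a6dc7.Helper892.QR.FieldN

/-!
# The discriminant of `ℚ(y)`, `y ^ m = N`: a lower bound with all primes of `N`, an upper bound
-/

set_option autoImplicit false

namespace Pool.Agent.H461.Cyc

open NumberField IntermediateField Polynomial Module

theorem pow_dvd_discr {K : Type} [Field K] [NumberField K] {p g e : ℕ} (hp : p.Prime)
    (hg : g ≠ 0) (w : 𝓞 K) (u : ℤ) (hw : w ^ (g * e) = (((p : ℤ) ^ g * u : ℤ) : 𝓞 K))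
    (hu : ¬ (p : ℤ) ∣ u) :
    p ^ (finrank ℚ K * (e - 1)) ∣ (NumberField.discr K).natAbs ^ e := by
  classical
  have hpZ : _root_.Prime (p : ℤ) := Nat.prime_iff_prime_int.mp hp
  set P : Ideal (𝓞 K) := Ideal.span {((p : ℕ) : 𝓞 K)} with hP
  set U : Ideal (𝓞 K) := Ideal.span {((u : ℤ) : 𝓞 K)} with hU
  have h1 : P ^ g * U = (Ideal.span {w}) ^ (g * e) := by
    rw [hP, hU, Ideal.span_singleton_pow, Ideal.span_singleton_mul_span_singleton,
      Ideal.span_singleton_pow, hw]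
    push_cast
    rfl
  have hcop : IsCoprime (P ^ g) U := by
    apply IsCoprime.pow_left
    rw [Ideal.isCoprime_iff_exists]
    obtain ⟨a, b, hab⟩ : IsCoprime (p : ℤ) u := (hpZ.coprime_iff_not_dvd).mpr hu
    refine ⟨(a : 𝓞 K) * ((p : ℕ) : 𝓞 K), ?_, (b : 𝓞 K) * ((u : ℤ) : 𝓞 K), ?_, ?_⟩
    · exact Ideal.mul_mem_left _ _ (Ideal.mem_span_singleton_self _)
    · exact Ideal.mul_mem_left _ _ (Ideal.mem_span_singleton_self _)
    · have : ((a * (p : ℤ) + b * u : ℤ) : 𝓞 K) = 1 := by rw [hab]; simp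
      push_cast at this
      exact this
  obtain ⟨J, hJ⟩ := exists_eq_pow_of_mul_eq_pow_of_coprime hcop h1
  have hJ' : P ^ g = (J ^ e) ^ g := by rw [hJ, ← pow_mul, mul_comm e g]
  have hPJ : P = J ^ e := by
    have a1 : P ∣ J ^ e := (UniqueFactorizationMonoid.pow_dvd_pow_iff_dvd hg).mp (dvd_of_eq hJ')
    have a2 : J ^ e ∣ P := (UniqueFactorizationMonoid.pow_dvd_pow_iff_dvd hg).mp
      (dvd_of_eq hJ'.symm)
    exact le_antisymm (Ideal.dvd_iff_le.mp a2) (Ideal.dvd_iff_le.mp a1)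
  have hmax : (Ideal.span {(p : ℤ)}).IsMaximal :=
    PrincipalIdealRing.isMaximal_of_irreducible hpZ.irreducible
  have hne : Ideal.span {(p : ℤ)} ≠ ⊥ := by
    rw [Ne, Ideal.span_singleton_eq_bot]; exact hpZ.ne_zero
  have hmap : Ideal.map (algebraMap ℤ (𝓞 K)) (Ideal.span {(p : ℤ)}) = P := by
    rw [Ideal.map_span, Set.image_singleton, hP]
    simp
  have h3 := pow_sub_one_dvd_differentIdeal ℤ J e hne (by rw [hmap, hPJ])
  have h4 := Ideal.absNorm_dvd_absNorm_of_le (Ideal.dvd_iff_le.mp h3)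
  rw [map_pow, NumberField.absNorm_differentIdeal K (𝓞 K)] at h4
  have h5 : (Ideal.absNorm J) ^ e = p ^ (finrank ℚ K) := by
    rw [← map_pow, ← hPJ, hP, Ideal.absNorm_span_natCast, RingOfIntegers.rank]
  calc p ^ (finrank ℚ K * (e - 1)) = ((Ideal.absNorm J) ^ (e - 1)) ^ e := by
        rw [pow_mul, ← h5, ← pow_mul, ← pow_mul, mul_comm]
    _ ∣ _ := pow_dvd_pow_of_dvd h4 e

/-- one prime -/
theorem vp_disc {y : ℂ} {n : ℤ} {m : ℕ} (hm : 0 < m) (hn : n ≠ 0)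
    (hy : y ^ m = n) [NumberField ℚ⟮y⟯] {p : ℕ} (hp : p.Prime) (hpn : p ∣ n.natAbs) :
    (finrank ℚ ℚ⟮y⟯) * m ≤ m * (NumberField.discr ℚ⟮y⟯).natAbs.factorization p +
      (finrank ℚ ℚ⟮y⟯) * n.natAbs.factorization p := by
  have h0 : n.natAbs ≠ 0 := Int.natAbs_ne_zero.mpr hn
  have hd0 : (NumberField.discr ℚ⟮y⟯).natAbs ≠ 0 := Int.natAbs_ne_zero.mpr (NumberField.discr_ne_zero _)
  set k := n.natAbs.factorization p with hk
  set d := (NumberField.discr ℚ⟮y⟯).natAbs.factorization p with hd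
  set r := finrank ℚ ℚ⟮y⟯ with hr
  set g := Nat.gcd k m with hg
  have hg0 : g ≠ 0 := (Nat.gcd_pos_of_pos_right _ hm).ne'
  have hk0 : k ≠ 0 := by
    have := (hp.dvd_iff_one_le_factorization h0).mp hpn
    omega
  have hgm : g ∣ m := Nat.gcd_dvd_right _ _
  by_cases hgm' : m ≤ g
  · -- the trivial case
    have h1 : g = m := le_antisymm (Nat.le_of_dvd hm hgm) hgm'
    have h2 : m ≤ k := by
      have : g ∣ k := Nat.gcd_dvd_left _ _
      rw [h1] at this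
      exact Nat.le_of_dvd (Nat.pos_of_ne_zero hk0) this
    calc r * m ≤ r * k := Nat.mul_le_mul_left _ h2
      _ ≤ _ := Nat.le_add_left _ _
  push Not at hgm'
  obtain ⟨e, he⟩ := hgm
  -- n = p ^ k * n'
  have h1 : p ^ k ∣ n.natAbs := by
    rw [hk]; exact Nat.ordProj_dvd _ _
  obtain ⟨n', hn'⟩ : ((p : ℤ)) ^ k ∣ n := by
    rw [← Int.natCast_pow]
    exact Int.natCast_dvd.mpr h1
  have hpn' : ¬ (p : ℤ) ∣ n' := by
    rintro ⟨m', hm'⟩
    have h2 : p ^ (k + 1) ∣ n.natAbs := by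
      rw [← Int.natCast_dvd]
      push_cast
      exact ⟨m', by rw [hn', hm']; ring⟩
    have h3 := (hp.pow_dvd_iff_le_factorization h0).mp h2
    omega
  obtain ⟨a, -, ha⟩ := Nat.exists_mul_mod_eq_gcd (n := k) (k := m) hgm'
  set b := k * a / m with hb
  have hkab : k * a = m * b + g := by
    have := Nat.div_add_mod (k * a) m
    rw [ha] at this
    exact this.symm
  set γ : ℚ⟮y⟯ := AdjoinSimple.gen ℚ y with hγ
  have hgm2 : γ ^ m = (n : ℚ⟮y⟯) := by
    apply Subtype.ext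
    push_cast
    rw [hγ, AdjoinSimple.coe_gen]
    simpa using hy
  have hp0 : (p : ℚ⟮y⟯) ≠ 0 := by exact_mod_cast hp.ne_zero
  set z : ℚ⟮y⟯ := γ ^ a / (p : ℚ⟮y⟯) ^ b with hz
  have hzm : z ^ m = (((p : ℤ) ^ g * n' ^ a : ℤ) : ℚ⟮y⟯) := by
    have h2 : (γ ^ a) ^ m = ((p : ℚ⟮y⟯) ^ b) ^ m * ((p : ℚ⟮y⟯) ^ g * (n' : ℚ⟮y⟯) ^ a) := by
      rw [← pow_mul, mul_comm a m, pow_mul, hgm2, hn']
      push_cast
      rw [mul_pow, ← pow_mul, hkab, ← pow_mul, mul_comm b m, pow_add]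
      ring
    rw [hz, div_pow, h2]
    push_cast
    field_simp
  have hzint : IsIntegral ℤ z := by
    refine IsIntegral.of_pow (n := m) hm ?_
    rw [hzm]
    exact isIntegral_algebraMap (R := ℤ) (A := ℚ⟮y⟯) (x := (p : ℤ) ^ g * n' ^ a)
  obtain ⟨w, hw⟩ : ∃ w : 𝓞 ℚ⟮y⟯, (w : ℚ⟮y⟯) = z := ⟨⟨z, hzint⟩, rfl⟩
  have hpu : ¬ (p : ℤ) ∣ n' ^ a := fun h =>
    hpn' ((Nat.prime_iff_prime_int.mp hp).dvd_of_dvd_pow h)
  have hdvd := pow_dvd_discr (g := g) (e := e) hp hg0 w (n' ^ a) (by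
    rw [← he]
    apply RingOfIntegers.ext
    have h5 : ((w ^ m : 𝓞 ℚ⟮y⟯) : ℚ⟮y⟯) = (w : ℚ⟮y⟯) ^ m := by simp
    have h6 : ((((p : ℤ) ^ g * n' ^ a : ℤ) : 𝓞 ℚ⟮y⟯) : ℚ⟮y⟯) =
        (((p : ℤ) ^ g * n' ^ a : ℤ) : ℚ⟮y⟯) := by
      simp
    exact (h5.trans (by rw [hw, hzm])).trans h6.symm) hpu
  rw [hp.pow_dvd_iff_le_factorization (pow_ne_zero _ hd0), Nat.factorization_pow] at hdvd
  simp only [Finsupp.smul_apply, smul_eq_mul] at hdvd
  rw [← hr, ← hd] at hdvd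
  -- `r * (e - 1) ≤ e * d`
  have h7 : r * m ≤ m * d + r * g := by
    obtain ⟨e', rfl⟩ : ∃ e', e = e' + 1 := by
      refine ⟨e - 1, ?_⟩
      have : e ≠ 0 := by
        rintro rfl
        omega
      omega
    rw [Nat.add_sub_cancel] at hdvd
    rw [he]
    calc r * (g * (e' + 1)) = g * (r * e') + r * g := by ring
      _ ≤ g * ((e' + 1) * d) + r * g := Nat.add_le_add_right (Nat.mul_le_mul_left _ hdvd) _
      _ = g * (e' + 1) * d + r * g := by ring
  have h8 : g ≤ k := Nat.le_of_dvd (Nat.pos_of_ne_zero hk0) (Nat.gcd_dvd_left _ _)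
  exact h7.trans (Nat.add_le_add_left (Nat.mul_le_mul_left _ h8) _)

/-- the radical -/
theorem log_rad {y : ℂ} {n : ℤ} {m : ℕ} (hm : 0 < m) (hn : n ≠ 0) (hy : y ^ m = n)
    [NumberField ℚ⟮y⟯] :
    ∑ p ∈ n.natAbs.primeFactors, Real.log p ≤
      Real.log |(NumberField.discr ℚ⟮y⟯ : ℝ)| / finrank ℚ ℚ⟮y⟯ + Real.log |(n : ℝ)| / m := by
  have h0 : n.natAbs ≠ 0 := Int.natAbs_ne_zero.mpr hn
  have hd0 : (NumberField.discr ℚ⟮y⟯).natAbs ≠ 0 :=
    Int.natAbs_ne_zero.mpr (NumberField.discr_ne_zero _)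
  have hfac : ∀ (N : ℕ) (s : Finset ℕ), N ≠ 0 → (∀ p ∈ s, p.Prime) →
      ∑ p ∈ s, (N.factorization p : ℝ) * Real.log p ≤ Real.log N := by
    intro N s hN hs
    have e1 : Real.log N = ∑ p ∈ N.primeFactors, (N.factorization p : ℝ) * Real.log p := by
      conv_lhs => rw [← Nat.prod_factorization_pow_eq_self hN]
      rw [Finsupp.prod, Nat.cast_prod, Real.log_prod]
      · refine Finset.sum_congr rfl fun p _ => ?_
        rw [Nat.cast_pow, Real.log_pow]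
      · intro p hp
        have : p.Prime := Nat.prime_of_mem_primeFactors hp
        exact_mod_cast (pow_pos this.pos _).ne'
    rw [e1]
    have e2 : ∑ p ∈ s, (N.factorization p : ℝ) * Real.log p =
        ∑ p ∈ s.filter (fun p => p ∈ N.primeFactors), (N.factorization p : ℝ) * Real.log p := by
      rw [Finset.sum_filter]
      refine Finset.sum_congr rfl fun p _ => ?_
      split_ifs with h
      · rfl
      · have : N.factorization p = 0 := by
          rw [← Finsupp.notMem_support_iff]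
          exact h
        rw [this, Nat.cast_zero, zero_mul]
    rw [e2]
    refine Finset.sum_le_sum_of_subset_of_nonneg ?_ ?_
    · intro p hp
      exact (Finset.mem_filter.mp hp).2
    · intro p hp _
      have : p.Prime := Nat.prime_of_mem_primeFactors hp
      have : (1 : ℝ) ≤ p := by exact_mod_cast this.one_lt.le
      exact mul_nonneg (Nat.cast_nonneg _) (Real.log_nonneg this)
  have hmR : (0 : ℝ) < m := by exact_mod_cast hm
  have hrR : (0 : ℝ) < finrank ℚ ℚ⟮y⟯ := by exact_mod_cast Module.finrank_pos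
  have hA := hfac _ n.natAbs.primeFactors hd0 (fun p hp => Nat.prime_of_mem_primeFactors hp)
  have hB := hfac _ n.natAbs.primeFactors h0 (fun p hp => Nat.prime_of_mem_primeFactors hp)
  have eA : (((NumberField.discr ℚ⟮y⟯).natAbs : ℕ) : ℝ) = |(NumberField.discr ℚ⟮y⟯ : ℝ)| := by
    rw [Nat.cast_natAbs, Int.cast_abs]
  have eB : ((n.natAbs : ℕ) : ℝ) = |(n : ℝ)| := by
    rw [Nat.cast_natAbs, Int.cast_abs]
  rw [eA] at hA
  rw [eB] at hB
  have key : ∑ p ∈ n.natAbs.primeFactors, Real.log p ≤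
      (∑ p ∈ n.natAbs.primeFactors,
        ((NumberField.discr ℚ⟮y⟯).natAbs.factorization p : ℝ) * Real.log p) / finrank ℚ ℚ⟮y⟯ +
      (∑ p ∈ n.natAbs.primeFactors, (n.natAbs.factorization p : ℝ) * Real.log p) / m := by
    rw [Finset.sum_div, Finset.sum_div, ← Finset.sum_add_distrib]
    refine Finset.sum_le_sum fun p hp => ?_
    have hpp : p.Prime := Nat.prime_of_mem_primeFactors hp
    have h1 := vp_disc hm hn hy hpp (Nat.dvd_of_mem_primeFactors hp)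
    have h2 : (finrank ℚ ℚ⟮y⟯ : ℝ) * m ≤ m * ((NumberField.discr ℚ⟮y⟯).natAbs.factorization p : ℝ) +
      (finrank ℚ ℚ⟮y⟯ : ℝ) * (n.natAbs.factorization p : ℝ) := by exact_mod_cast h1
    have h3 : (1 : ℝ) ≤ p := by exact_mod_cast hpp.one_lt.le
    have h4 : 0 ≤ Real.log p := Real.log_nonneg h3
    have h5 : 1 ≤ ((NumberField.discr ℚ⟮y⟯).natAbs.factorization p : ℝ) / finrank ℚ ℚ⟮y⟯ +
        (n.natAbs.factorization p : ℝ) / m := by
      rw [div_add_div _ _ hrR.ne' hmR.ne', le_div_iff₀ (by positivity), one_mul]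
      linarith
    calc Real.log p = 1 * Real.log p := (one_mul _).symm
      _ ≤ (((NumberField.discr ℚ⟮y⟯).natAbs.factorization p : ℝ) / finrank ℚ ℚ⟮y⟯ +
        (n.natAbs.factorization p : ℝ) / m) * Real.log p := mul_le_mul_of_nonneg_right h5 h4
      _ = _ := by ring
  refine key.trans (add_le_add (div_le_div_of_nonneg_right hA hrR.le)
    (div_le_div_of_nonneg_right hB hmR.le))

open Classical in
/-- the logarithmic discriminant of a field of complex numbers -/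
noncomputable def LD (F : IntermediateField ℚ ℂ) : ℝ :=
  if _ : NumberField F then Real.log |(NumberField.discr F : ℝ)| / finrank ℚ F else 0

theorem LD_eq (F : IntermediateField ℚ ℂ) [h : NumberField F] :
    LD F = Real.log |(NumberField.discr F : ℝ)| / finrank ℚ F := by
  unfold LD
  rw [dif_pos h]

theorem gen_top (z : ℂ) : @IntermediateField.adjoin ℚ _ ℚ⟮z⟯ _ DivisionRing.toRatAlgebra
    {AdjoinSimple.gen ℚ z} = ⊤ := by
  have e : (DivisionRing.toRatAlgebra : Algebra ℚ ℚ⟮z⟯) = ℚ⟮z⟯.algebra' := Subsingleton.elim _ _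
  rw [e]
  have h1 : IntermediateField.map ℚ⟮z⟯.val (@IntermediateField.adjoin ℚ _ ℚ⟮z⟯ _ ℚ⟮z⟯.algebra'
      {AdjoinSimple.gen ℚ z}) = ℚ⟮z⟯ := by
    rw [adjoin_map, Set.image_singleton]
    rfl
  have h2 : IntermediateField.map ℚ⟮z⟯.val
      (@Top.top (@IntermediateField ℚ ℚ⟮z⟯ _ _ ℚ⟮z⟯.algebra') _) = ℚ⟮z⟯ := by
    rw [← AlgHom.fieldRange_eq_map, fieldRange_val]
  exact IntermediateField.map_injective ℚ⟮z⟯.val (h1.trans h2.symm)

/-- an upper bound -/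
theorem LD_le {z : ℂ} {n : ℤ} {m : ℕ} (hm : 0 < m) (hn : n ≠ 0) (hz : z ^ m = n) :
    LD ℚ⟮z⟯ ≤ Real.log m + ((m : ℝ) - 1) / m * Real.log |(n : ℝ)| := by
  have : NumberField ℚ⟮z⟯ := Pool.Agent.H813R3.Voj.numberField_of_powM hm hz
  rw [LD_eq]
  have hA : ((n : ℤ) : 𝓞 ℚ) ≠ 0 := by exact_mod_cast hn
  have hβ : ((AdjoinSimple.gen ℚ z : ℚ⟮z⟯)) ^ m = algebraMap ℚ ℚ⟮z⟯ (((n : ℤ) : 𝓞 ℚ) : ℚ) := by
    apply Subtype.ext
    push_cast
    rw [AdjoinSimple.coe_gen]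
    simpa using hz
  have key := Pool.Agent.Helper892.QR.ld_root ℚ ℚ⟮z⟯ hm _ hA _ (gen_top z) hβ
  unfold Pool.Agent.Y733.VR.ld at key
  simp only [finrank_self, Nat.cast_one, div_one, Rat.numberField_discr, Int.cast_one,
    abs_one, Real.log_one, zero_add] at key
  have e0 : ((((n : ℤ) : 𝓞 ℚ)) : ℚ) = (n : ℚ) := by simp
  have e1 : @Algebra.norm ℚ ℚ _ _ DivisionRing.toRatAlgebra (n : ℚ) = (n : ℚ) := by
    have e : (DivisionRing.toRatAlgebra : Algebra ℚ ℚ) = Algebra.id ℚ := Subsingleton.elim _ _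
    rw [e]
    simp
  rw [e0, e1, Rat.cast_intCast] at key
  exact key

/-- removal of the `m`-th powers -/
theorem LD_pow {y : ℂ} {l k : ℤ} {m : ℕ} (hm : 0 < m) (hl : l ≠ 0) (hk : k ≠ 0)
    (hy : y ^ m = ((l ^ m * k : ℤ) : ℂ)) :
    LD ℚ⟮y⟯ ≤ Real.log m + ((m : ℝ) - 1) / m * Real.log |(k : ℝ)| := by
  have hlC : (l : ℂ) ≠ 0 := by exact_mod_cast hl
  have hz : (y / l) ^ m = k := by
    rw [div_pow, hy]
    push_cast
    field_simp
  have e : ℚ⟮y⟯ = ℚ⟮y / l⟯ := by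
    apply le_antisymm
    · rw [adjoin_simple_le_iff]
      have h1 : y / l ∈ ℚ⟮y / l⟯ := mem_adjoin_simple_self ℚ _
      have h2 : (l : ℂ) ∈ ℚ⟮y / l⟯ := intCast_mem _ l
      have h3 := mul_mem h1 h2
      rwa [div_mul_cancel₀ _ hlC] at h3
    · rw [adjoin_simple_le_iff]
      exact div_mem (mem_adjoin_simple_self ℚ _) (intCast_mem _ l)
  rw [e]
  exact LD_le hm hk hz

end Pool.Agent.H461.Cyc
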