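import Pool.Agent.H461.Cyc.Primes
import Pool.Agent.H461.Low.Low

/-!
# Factors of a form and congruences modulo powers of two primes
-/

set_option autoImplicit false

namespace Pool.Agent.H461.Cyc

open Finset Polynomial
open Pool.Agent.Y670.RD Pool.Agent.H461.Fam

/-- an integer has few large prime divisors -/
theorem few_primes (v : ℤ) (hv : v ≠ 0) (N K : ℕ) (h : |(v : ℝ)| < (N : ℝ) ^ (K + 1)) (s : Finset ℕ)
    (hs : ∀ p ∈ s, p.Prime ∧ N < p ∧ (p : ℤ) ∣ v) : s.card ≤ K := by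
  by_contra hcon
  push Not at hcon
  have h0 : v.natAbs ≠ 0 := Int.natAbs_ne_zero.mpr hv
  have h1 : ∏ p ∈ s, p ∣ v.natAbs := by
    refine Finset.prod_dvd_of_isRelPrime ?_ ?_
    · intro p hp q hq hpq
      rw [Finset.mem_coe] at hp hq
      rw [Function.onFun, ← Nat.coprime_iff_isRelPrime]
      exact (Nat.coprime_primes (hs p hp).1 (hs q hq).1).mpr hpq
    · intro p hp
      exact Int.natCast_dvd.1 (hs p hp).2.2
  have h2 : N ^ s.card ≤ ∏ p ∈ s, p := by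
    rw [← prod_const]
    exact prod_le_prod' fun p hp => (hs p hp).2.1.le
  have hN : 1 ≤ N := by
    rcases Nat.eq_zero_or_pos N with h3 | h3
    · exfalso
      rw [h3] at h
      have : |(v : ℝ)| < 0 := by simpa using h
      exact absurd (abs_nonneg (v : ℝ)) (not_le.mpr this)
    · exact h3
  have h3 : N ^ (K + 1) ≤ v.natAbs := (Nat.pow_le_pow_right hN hcon).trans
    (h2.trans (Nat.le_of_dvd (Nat.pos_of_ne_zero h0) h1))
  have h4 : (N : ℝ) ^ (K + 1) ≤ |(v : ℝ)| := by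
    have : ((N ^ (K + 1) : ℕ) : ℝ) ≤ (v.natAbs : ℝ) := by exact_mod_cast h3
    rw [Nat.cast_natAbs, Int.cast_abs] at this
    exact_mod_cast this
  linarith

theorem disc_prime (g : ℤ[X]) (hg : Squarefree (g.map (Int.castRingHom ℚ))) :
    ∃ K : ℤ, K ≠ 0 ∧ ∀ (p : ℕ) (n : ℤ), p.Prime → ¬ (p : ℤ) ∣ K →
      (p : ℤ) ∣ g.eval n → ¬ (p : ℤ) ∣ g.derivative.eval n := by
  have hsep : (g.map (Int.castRingHom ℚ)).Separable :=
    (PerfectField.separable_iff_squarefree).2 hg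
  obtain ⟨u, v, huv⟩ := hsep
  obtain ⟨a, u', ha0, hu'⟩ := clear u
  obtain ⟨b, v', hb0, hv'⟩ := clear v
  have key : C b * u' * g + C a * v' * derivative g = C (a * b) := by
    apply Polynomial.map_injective (Int.castRingHom ℚ) Int.cast_injective
    rw [Polynomial.map_add, Polynomial.map_mul, Polynomial.map_mul, Polynomial.map_mul,
      Polynomial.map_mul, map_C, map_C, map_C, hu', hv', ← derivative_map]
    have e : C ((Int.castRingHom ℚ) b) * (C (a : ℚ) * u) * g.map (Int.castRingHom ℚ) +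
        C ((Int.castRingHom ℚ) a) * (C (b : ℚ) * v) * derivative (g.map (Int.castRingHom ℚ)) =
        C ((Int.castRingHom ℚ) (a * b)) * (u * g.map (Int.castRingHom ℚ) +
          v * derivative (g.map (Int.castRingHom ℚ))) := by
      simp only [eq_intCast, Int.cast_mul, C_mul]
      ring
    rw [e, huv, mul_one]
  refine ⟨a * b, mul_ne_zero ha0 hb0, fun p n hp hpK h1 h2 => hpK ?_⟩
  have h3 := congrArg (eval n) key
  simp only [eval_add, eval_mul, eval_C] at h3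
  rw [← h3]
  exact dvd_add (h1.mul_left _) (h2.mul_left _)

theorem factor_eval (f g : ℤ[X]) (h : g.map (Int.castRingHom ℚ) ∣ f.map (Int.castRingHom ℚ)) :
    ∃ M : ℤ, M ≠ 0 ∧ ∀ (p k : ℕ) (ρ : ℤ), p.Prime → ¬ (p : ℤ) ∣ M → (p : ℤ) ^ k ∣ g.eval ρ →
      (p : ℤ) ^ k ∣ f.eval ρ := by
  obtain ⟨u, hu⟩ := h
  obtain ⟨m, Q, hm, hQ⟩ := clear u
  have e : C m * f = g * Q := by
    apply Polynomial.map_injective (Int.castRingHom ℚ) Int.cast_injective
    rw [Polynomial.map_mul, Polynomial.map_mul, map_C, hQ, hu, eq_intCast]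
    ring
  refine ⟨m, hm, fun p k ρ hp hpm hd => ?_⟩
  have h1 := congrArg (eval ρ) e
  rw [eval_mul, eval_mul, eval_C] at h1
  have h2 : (p : ℤ) ^ k ∣ m * f.eval ρ := by
    rw [h1]
    exact hd.mul_right _
  have h3 : IsCoprime ((p : ℤ) ^ k) m :=
    ((Prime.coprime_iff_not_dvd (Nat.prime_iff_prime_int.1 hp)).2 hpm).pow_left
  exact h3.dvd_of_dvd_mul_left h2

/-- lifting of the roots -/
theorem prime_lift (f g : ℤ[X]) (hg : Irreducible (g.map (Int.castRingHom ℚ)))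
    (h : g.map (Int.castRingHom ℚ) ∣ f.map (Int.castRingHom ℚ)) :
    ∃ M : ℕ, 1 ≤ M ∧ ∀ (p : ℕ), p.Prime → ¬ p ∣ M → (∃ r : ℤ, (p : ℤ) ∣ g.eval r) →
      ∀ m : ℕ, ∃ ρ : ℤ, (p : ℤ) ^ m ∣ g.eval ρ ∧ (p : ℤ) ^ m ∣ f.eval ρ := by
  obtain ⟨K, hK, hdisc⟩ := disc_prime g hg.squarefree
  obtain ⟨M, hM, hfac⟩ := factor_eval f g h
  refine ⟨(K * M).natAbs, Int.natAbs_pos.mpr (mul_ne_zero hK hM), fun p hp hpM ⟨r, hr⟩ m => ?_⟩
  have h1 : ¬ (p : ℤ) ∣ K := fun h => hpM (Int.natCast_dvd.1 (h.mul_right _))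
  have h2 : ¬ (p : ℤ) ∣ M := fun h => hpM (Int.natCast_dvd.1 (h.mul_left _))
  obtain ⟨ρ, -, hρ⟩ := hensel g p hp r hr (hdisc p r hp h1 hr) m
  have h3 : (p : ℤ) ^ m ∣ g.eval ρ := (pow_dvd_pow _ (Nat.le_succ m)).trans hρ
  exact ⟨ρ, h3, hfac p m ρ hp h2 h3⟩

theorem dvd_fv (g : ℤ[X]) (D ρ x y : ℤ) (h : D ∣ x - ρ * y) (hD : D ∣ g.eval ρ) :
    D ∣ fv g.natDegree g x y := by
  have h1 := fv_congr g.natDegree g y h
  have h2 : fv g.natDegree g (ρ * y) y = y ^ g.natDegree * g.eval ρ := by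
    have := fv_homog g.natDegree g y ρ 1
    rw [mul_one, mul_comm y ρ, fv_one _ _ le_rfl] at this
    exact this
  rw [h2] at h1
  have h4 := dvd_add h1 (hD.mul_left (y ^ g.natDegree))
  rwa [sub_add_cancel] at h4

theorem fv_root (g : ℤ[X]) (hg : g ≠ 0) (x y : ℤ) (hxy : ¬ (x = 0 ∧ y = 0))
    (h : fv g.natDegree g x y = 0) : (g.map (Int.castRingHom ℚ)).IsRoot ((x : ℚ) / y) := by
  by_cases hy : y = 0
  · exfalso
    rw [hy, fv_zero] at h
    rcases mul_eq_zero.1 h with h1 | h1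
    · exact leadingCoeff_ne_zero.2 hg h1
    · exact hxy ⟨by by_contra h2; exact pow_ne_zero _ h2 h1, hy⟩
  · have h1 := fvq (f := g) (s := x) le_rfl hy
    have h2 : aeval ((x : ℚ) / y) g = (g.map (Int.castRingHom ℚ)).eval ((x : ℚ) / y) := by
      rw [eval_map, aeval_def]
      rfl
    have hyQ : (y : ℚ) ≠ 0 := by exact_mod_cast hy
    rw [IsRoot.def, ← h2]
    rw [h, Int.cast_zero] at h1
    exact (mul_eq_zero.1 h1.symm).resolve_left (pow_ne_zero _ hyQ)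

/-- two factors -/
theorem exists_factors (f : ℤ[X]) (hf : Squarefree (f.map (Int.castRingHom ℚ)))
    (hd : 2 ≤ f.natDegree) : ∃ g₁ g₂ : ℤ[X],
      Irreducible (g₁.map (Int.castRingHom ℚ)) ∧ Irreducible (g₂.map (Int.castRingHom ℚ)) ∧
      g₁.map (Int.castRingHom ℚ) ∣ f.map (Int.castRingHom ℚ) ∧
      g₂.map (Int.castRingHom ℚ) ∣ f.map (Int.castRingHom ℚ) ∧
      ((∀ x y : ℤ, ¬ (x = 0 ∧ y = 0) → fv g₁.natDegree g₁ x y ≠ 0 ∧ fv g₂.natDegree g₂ x y ≠ 0) ∨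
      (g₁.natDegree = 1 ∧ g₂.natDegree = 1 ∧ ∀ x y : ℤ, ¬ (x = 0 ∧ y = 0) →
        ¬ (fv g₁.natDegree g₁ x y = 0 ∧ fv g₂.natDegree g₂ x y = 0))) := by
  set F := f.map (Int.castRingHom ℚ) with hF
  have hf0 : f ≠ 0 := by
    rintro rfl
    simp at hd
  have hF0 : F ≠ 0 := (Polynomial.map_ne_zero_iff Int.cast_injective).2 hf0
  have hFd : F.natDegree = f.natDegree := natDegree_map_eq_of_injective Int.cast_injective f
  -- integral representatives
  have hrep : ∀ p : ℚ[X], Irreducible p → ∃ g : ℤ[X], Irreducible (g.map (Int.castRingHom ℚ)) ∧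
      Associated (g.map (Int.castRingHom ℚ)) p ∧ g.natDegree = p.natDegree := by
    intro p hp
    obtain ⟨m, Q, hm, hQ⟩ := clear p
    have hmQ : (m : ℚ) ≠ 0 := by exact_mod_cast hm
    have hassoc : Associated (Q.map (Int.castRingHom ℚ)) p := by
      rw [hQ]
      exact associated_unit_mul_left p (C (m : ℚ)) ((isUnit_iff_ne_zero.2 hmQ).map C)
    refine ⟨Q, (hassoc.irreducible_iff).2 hp, hassoc, ?_⟩
    rw [← natDegree_map_eq_of_injective (f := Int.castRingHom ℚ) Int.cast_injective Q, hQ,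
      natDegree_C_mul hmQ]
  by_cases hcase : ∃ p : ℚ[X], Irreducible p ∧ p ∣ F ∧ 2 ≤ p.natDegree
  · obtain ⟨p, hp, hpF, hpd⟩ := hcase
    obtain ⟨g, hg, hgp, hgd⟩ := hrep p hp
    have hno : ∀ x y : ℤ, ¬ (x = 0 ∧ y = 0) → fv g.natDegree g x y ≠ 0 := by
      intro x y hxy h0
      have hg0 : g ≠ 0 := by
        rintro h1
        rw [h1, Polynomial.map_zero] at hg
        exact hg.ne_zero rfl
      have h1 := fv_root g hg0 x y hxy h0
      have h2 := degree_eq_one_of_irreducible_of_root hg h1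
      have h3 : (g.map (Int.castRingHom ℚ)).natDegree = 1 := natDegree_eq_of_degree_eq_some h2
      rw [natDegree_map_eq_of_injective Int.cast_injective g] at h3
      omega
    exact ⟨g, g, hg, hg, (hgp.dvd_iff_dvd_left).2 hpF, (hgp.dvd_iff_dvd_left).2 hpF,
      Or.inl fun x y h => ⟨hno x y h, hno x y h⟩⟩
  · push Not at hcase
    have hFu : ¬ IsUnit F := by
      intro h
      have := natDegree_eq_zero_of_isUnit h
      omega
    obtain ⟨p₁, hp₁, hp₁F⟩ := WfDvdMonoid.exists_irreducible_factor hFu hF0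
    have hdeg : ∀ p : ℚ[X], Irreducible p → p ∣ F → p.natDegree = 1 := by
      intro p hp hpF
      have h1 := hcase p hp hpF
      have h2 := hp.natDegree_pos
      omega
    obtain ⟨h, hh⟩ := hp₁F
    have hh0 : h ≠ 0 := by
      rintro rfl
      rw [mul_zero] at hh
      exact hF0 hh
    have hhd : F.natDegree = p₁.natDegree + h.natDegree := by
      rw [hh, natDegree_mul hp₁.ne_zero hh0]
    have hhu : ¬ IsUnit h := by
      intro h1
      have h2 := natDegree_eq_zero_of_isUnit h1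
      have h3 := hdeg p₁ hp₁ ⟨h, hh⟩
      omega
    obtain ⟨p₂, hp₂, hp₂h⟩ := WfDvdMonoid.exists_irreducible_factor hhu hh0
    have hp₂F : p₂ ∣ F := hh ▸ hp₂h.mul_left _
    obtain ⟨g₁, hg₁, hgp₁, hgd₁⟩ := hrep p₁ hp₁
    obtain ⟨g₂, hg₂, hgp₂, hgd₂⟩ := hrep p₂ hp₂
    refine ⟨g₁, g₂, hg₁, hg₂, (hgp₁.dvd_iff_dvd_left).2 ⟨h, hh⟩, (hgp₂.dvd_iff_dvd_left).2 hp₂F,
      Or.inr ⟨by rw [hgd₁, hdeg p₁ hp₁ ⟨h, hh⟩], by rw [hgd₂, hdeg p₂ hp₂ hp₂F], ?_⟩⟩
    rintro x y hxy ⟨h1, h2⟩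
    have hg₁0 : g₁ ≠ 0 := by
      rintro h1
      rw [h1, Polynomial.map_zero] at hg₁
      exact hg₁.ne_zero rfl
    have hg₂0 : g₂ ≠ 0 := by
      rintro h1
      rw [h1, Polynomial.map_zero] at hg₂
      exact hg₂.ne_zero rfl
    have r1 := dvd_iff_isRoot.2 (fv_root g₁ hg₁0 x y hxy h1)
    have r2 := dvd_iff_isRoot.2 (fv_root g₂ hg₂0 x y hxy h2)
    have s1 : X - C ((x : ℚ) / y) ∣ p₁ := (hgp₁.dvd_iff_dvd_right).1 r1
    have s2 : X - C ((x : ℚ) / y) ∣ p₂ := (hgp₂.dvd_iff_dvd_right).1 r2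
    have h3 : (X - C ((x : ℚ) / y)) * (X - C ((x : ℚ) / y)) ∣ F := by
      rw [hh]
      exact mul_dvd_mul s1 (s2.trans hp₂h)
    have h4 := hf _ h3
    have h5 := natDegree_eq_zero_of_isUnit h4
    rw [natDegree_X_sub_C] at h5
    omega

end Pool.Agent.H461.Cyc
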