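import Pool.Agent.H461.Fam.Lat

/-!
# Coprime points of a lattice in a class of residues, II
-/

set_option autoImplicit false

namespace Pool.Agent.H461.Cyc

open Finset Pool.Agent.H461.Fam

theorem res_count (p : ℕ) (hp : p.Prime) (h64 : 64 ≤ p) (u v : ℤ) (hu : ¬ (p : ℤ) ∣ u) (a : ℤ)
    (N : ℕ) (hN : 64 ≤ N) :
    (((Ico a (a + N)).filter (fun i => (p : ℤ) ∣ u * i + v)).card : ℝ) ≤ (N : ℝ) / 32 := by
  classical
  have hp0 : (0 : ℤ) < p := by exact_mod_cast hp.pos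
  rcases ((Ico a (a + N)).filter (fun i => (p : ℤ) ∣ u * i + v)).eq_empty_or_nonempty with h0 | ⟨i₀, hi₀⟩
  · rw [h0, card_empty, Nat.cast_zero]
    positivity
  rw [mem_filter] at hi₀
  have hsub : (Ico a (a + N)).filter (fun i => (p : ℤ) ∣ u * i + v) ⊆
      (Ico a (a + N)).filter (fun i => i ≡ i₀ [ZMOD p]) := by
    intro i hi
    rw [mem_filter] at hi ⊢
    refine ⟨hi.1, ?_⟩
    have h1 : (p : ℤ) ∣ u * (i₀ - i) := by
      have := dvd_sub hi₀.2 hi.2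
      have e : u * i₀ + v - (u * i + v) = u * (i₀ - i) := by ring
      rwa [e] at this
    have h2 := ((Nat.prime_iff_prime_int.1 hp).dvd_or_dvd h1).resolve_left hu
    exact (Int.modEq_iff_dvd).2 h2
  have h1 := card_le_card hsub
  have h2 := Int.Ico_filter_modEq_card a (a + N) hp0 i₀
  have h3 : ((((Ico a (a + N)).filter (fun i => i ≡ i₀ [ZMOD p])).card : ℕ) : ℝ) ≤ (N : ℝ) / p + 1 := by
    have e : ((((Ico a (a + N)).filter (fun i => i ≡ i₀ [ZMOD p])).card : ℤ) : ℝ) ≤ (N : ℝ) / p + 1 := by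
      rw [h2]
      have hpR : (0 : ℝ) < p := by exact_mod_cast hp.pos
      push_cast
      apply max_le
      · have b1 := Int.ceil_lt_add_one (((a + N : ℤ) - i₀ : ℚ) / ((p : ℤ) : ℚ))
        have b2 := Int.le_ceil (((a : ℤ) - i₀ : ℚ) / ((p : ℤ) : ℚ))
        have b3 : ((⌈(((a + N : ℤ) - i₀ : ℚ) / ((p : ℤ) : ℚ))⌉ : ℚ)) -
            (⌈(((a : ℤ) - i₀ : ℚ) / ((p : ℤ) : ℚ))⌉ : ℚ) ≤ (N : ℚ) / p + 1 := by
          have e1 : (((a + N : ℤ) - i₀ : ℚ) / ((p : ℤ) : ℚ)) =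
              (((a : ℤ) - i₀ : ℚ) / ((p : ℤ) : ℚ)) + (N : ℚ) / p := by
            push_cast
            ring
          rw [e1] at b1 ⊢
          linarith
        have b4 : (((⌈(((a + N : ℤ) - i₀ : ℚ) / ((p : ℤ) : ℚ))⌉ : ℚ)) -
            (⌈(((a : ℤ) - i₀ : ℚ) / ((p : ℤ) : ℚ))⌉ : ℚ) : ℚ) ≤ ((N : ℚ) / p + 1 : ℚ) := b3
        have b5 : (((((⌈(((a + N : ℤ) - i₀ : ℚ) / ((p : ℤ) : ℚ))⌉ : ℚ)) -
            (⌈(((a : ℤ) - i₀ : ℚ) / ((p : ℤ) : ℚ))⌉ : ℚ) : ℚ)) : ℝ) ≤ (((N : ℚ) / p + 1 : ℚ) : ℝ) := by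
          exact_mod_cast b4
        push_cast at b5
        push_cast
        exact b5
      · positivity
    exact_mod_cast e
  have h4 : (((Ico a (a + N)).filter (fun i => (p : ℤ) ∣ u * i + v)).card : ℝ) ≤ (N : ℝ) / p + 1 := by
    refine le_trans ?_ h3
    exact_mod_cast h1
  refine h4.trans ?_
  have h5 : (64 : ℝ) ≤ p := by exact_mod_cast h64
  have h6 : (64 : ℝ) ≤ N := by exact_mod_cast hN
  have h7 : (N : ℝ) / p ≤ N / 64 := div_le_div_of_nonneg_left (by linarith) (by norm_num) h5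
  linarith

theorem rem_count (L p : ℕ) (hp : p.Prime) (h64 : 64 ≤ p) (hpL : ¬ p ∣ L) (N M : ℕ) (hM : 64 ≤ M)
    (hMN : M ≤ N) (α β i0 j0 y1 y2 z1 z2 : ℤ) (hdet : z1 * y2 - z2 * y1 = 1) :
    (((Ico i0 (i0 + N) ×ˢ Ico j0 (j0 + M)).filter
      (fun t => (p : ℤ) ∣ (α + L * t.1) * y1 + (β + L * t.2) * y2)).card : ℝ) ≤
      (N : ℝ) * M / 32 := by
  classical
  have hpI : Prime (p : ℤ) := Nat.prime_iff_prime_int.1 hp
  have hpL' : ¬ (p : ℤ) ∣ (L : ℤ) := fun h => hpL (Int.natCast_dvd_natCast.1 h)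
  rw [card_filter, Nat.cast_sum]
  by_cases h1 : (p : ℤ) ∣ y1
  · have h2 : ¬ (p : ℤ) ∣ y2 := by
      intro h2
      apply hpI.not_isUnit
      rw [isUnit_iff_dvd_one, ← hdet]
      exact dvd_sub (h2.mul_left _) (h1.mul_left _)
    rw [sum_product]
    have e : ∀ i ∈ Ico i0 (i0 + (N : ℤ)), ∑ j ∈ Ico j0 (j0 + (M : ℤ)),
        (((if (p : ℤ) ∣ (α + L * i) * y1 + (β + L * j) * y2 then 1 else 0 : ℕ)) : ℝ) ≤ (M : ℝ) / 32 := by
      intro i _
      have h3 := res_count p hp h64 (L * y2) ((α + L * i) * y1 + β * y2)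
        (fun h => (hpI.dvd_or_dvd h).elim hpL' h2) j0 M hM
      rw [card_filter, Nat.cast_sum] at h3
      refine le_trans (le_of_eq ?_) h3
      refine sum_congr rfl fun j _ => ?_
      have e1 : (α + L * i) * y1 + (β + L * j) * y2 = L * y2 * j + ((α + L * i) * y1 + β * y2) := by
        ring
      rw [e1]
    refine (sum_le_sum e).trans ?_
    rw [sum_const, nsmul_eq_mul, Int.card_Ico, add_sub_cancel_left, Int.toNat_natCast]
    apply le_of_eq
    ring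
  · rw [sum_product_right]
    have e : ∀ j ∈ Ico j0 (j0 + (M : ℤ)), ∑ i ∈ Ico i0 (i0 + (N : ℤ)),
        (((if (p : ℤ) ∣ (α + L * i) * y1 + (β + L * j) * y2 then 1 else 0 : ℕ)) : ℝ) ≤ (N : ℝ) / 32 := by
      intro j _
      have h3 := res_count p hp h64 (L * y1) (α * y1 + (β + L * j) * y2)
        (fun h => (hpI.dvd_or_dvd h).elim hpL' h1) i0 N (hM.trans hMN)
      rw [card_filter, Nat.cast_sum] at h3
      refine le_trans (le_of_eq ?_) h3
      refine sum_congr rfl fun i _ => ?_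
      have e1 : (α + L * i) * y1 + (β + L * j) * y2 = L * y1 * i + (α * y1 + (β + L * j) * y2) := by
        ring
      rw [e1]
    refine (sum_le_sum e).trans ?_
    rw [sum_const, nsmul_eq_mul, Int.card_Ico, add_sub_cancel_left, Int.toNat_natCast]
    apply le_of_eq
    ring

open Classical in
/-- coprime points of a lattice close to a given direction, in a class of residues, whose second
coordinates are not divisible by two given primes -/
theorem lat_count2 (L : ℕ) (hL : 1 ≤ L) (a0 b0 η : ℝ) (hη : 0 < η) : ∃ C₀ c : ℝ, 0 < C₀ ∧ 0 < c ∧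
    ∀ (D : ℕ) (ρ zs ys : ℤ) (lam H : ℝ) (p₁ p₂ : ℕ), 1 ≤ D → 0 < lam → 0 < H →
      p₁.Prime → p₂.Prime → 64 ≤ p₁ → 64 ≤ p₂ → ¬ p₁ ∣ L → ¬ p₂ ∣ L →
      (∀ p : ℕ, p.Prime → p ∣ L → ¬ ((p : ℤ) ∣ zs ∧ (p : ℤ) ∣ ys)) →
      (∀ z y : ℤ, ¬ (z = 0 ∧ y = 0) → lam ^ 2 ≤ (nf D ρ z y : ℝ)) →
      C₀ * D ≤ H * lam → ∃ P : Finset (ℤ × ℤ), c * H ^ 2 / D ≤ (P.card : ℝ) ∧
        ∀ t ∈ P, ∃ z : ℤ, t.1 = D * z + ρ * t.2 ∧ IsCoprime z t.2 ∧ (L : ℤ) ∣ z - zs ∧
          (L : ℤ) ∣ t.2 - ys ∧ |(t.1 : ℝ) - H * a0| ≤ η * H ∧ |(t.2 : ℝ) - H * b0| ≤ η * H ∧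
          ¬ (p₁ : ℤ) ∣ t.2 ∧ ¬ (p₂ : ℤ) ∣ t.2 := by
  set w : ℝ := |a0| + |b0| with hw
  set δ : ℝ := η / 2 with hδ
  have hδ0 : 0 < δ := by positivity
  have hw0 : 0 ≤ w := by positivity
  have hLR : (1 : ℝ) ≤ L := by exact_mod_cast hL
  obtain ⟨M₁, hM₁⟩ := cop_count L hL (⌈(2 * w + δ) * L / δ⌉₊ + 1) (by omega)
  obtain ⟨M₀, hM₀e⟩ : ∃ M₀ : ℕ, M₀ = max M₁ 64 := ⟨_, rfl⟩
  refine ⟨(M₀ + 1) * L / δ, δ ^ 2 / (32 * L ^ 2), by positivity, by positivity, ?_⟩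
  intro D ρ zs ys lam H p₁ p₂ hD hlam hH hp₁ hp₂ h64₁ h64₂ hp₁L hp₂L hcls hmin hHl
  have hDZ : (1 : ℤ) ≤ (D : ℤ) := by exact_mod_cast hD
  have hDR : (1 : ℝ) ≤ D := by exact_mod_cast hD
  obtain ⟨z1, y1, z2, y2, hdet, hn1, hn12, hred⟩ := reduced (D : ℤ) ρ hDZ
  set n1 : ℝ := (nf D ρ z1 y1 : ℝ) with hn1d
  set n2 : ℝ := (nf D ρ z2 y2 : ℝ) with hn2d
  have hn1R : 0 < n1 := by rw [hn1d]; exact_mod_cast hn1
  have hn12R : n1 ≤ n2 := by rw [hn1d, hn2d]; exact_mod_cast hn12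
  have hn2R : 0 < n2 := hn1R.trans_le hn12R
  have hredR : 3 * (n1 * n2) ≤ 4 * (D : ℝ) ^ 2 := by rw [hn1d, hn2d]; exact_mod_cast hred
  set s1 : ℝ := √n1 with hs1
  set s2 : ℝ := √n2 with hs2
  have hs1p : 0 < s1 := Real.sqrt_pos.2 hn1R
  have hs2p : 0 < s2 := Real.sqrt_pos.2 hn2R
  have hs12 : s1 ≤ s2 := Real.sqrt_le_sqrt hn12R
  have hs1s : s1 ^ 2 = n1 := Real.sq_sqrt hn1R.le
  have hs2s : s2 ^ 2 = n2 := Real.sq_sqrt hn2R.le
  have hs12D : s1 * s2 ≤ 2 * D := by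
    have h1 : (s1 * s2) ^ 2 ≤ (2 * (D : ℝ)) ^ 2 := by
      rw [mul_pow, hs1s, hs2s]
      nlinarith [sq_nonneg (D : ℝ)]
    exact (pow_le_pow_iff_left₀ (by positivity) (by positivity) (by norm_num)).1 h1
  have hs12D' : s1 * s2 ≤ 2 * D := hs12D
  have hlam1 : lam ≤ s1 := by
    have h1 : lam ^ 2 ≤ s1 ^ 2 := by
      rw [hs1s]
      refine hmin z1 y1 ?_
      rintro ⟨h2, h3⟩
      rw [h2, h3] at hdet
      simp at hdet
    exact (pow_le_pow_iff_left₀ hlam.le hs1p.le (by norm_num)).1 h1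
  -- the coordinates
  set x1 : ℤ := D * z1 + ρ * y1 with hx1
  set x2 : ℤ := D * z2 + ρ * y2 with hx2
  have hdetx : x1 * y2 - x2 * y1 = D := by
    rw [hx1, hx2]
    linear_combination (D : ℤ) * hdet
  have hdetR : (x1 : ℝ) * y2 - x2 * y1 = D := by exact_mod_cast hdetx
  have hn1e : n1 = (x1 : ℝ) ^ 2 + (y1 : ℝ) ^ 2 := by
    rw [hn1d, nf, ← hx1]; push_cast; ring
  have hn2e : n2 = (x2 : ℝ) ^ 2 + (y2 : ℝ) ^ 2 := by
    rw [hn2d, nf, ← hx2]; push_cast; ring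
  have hax1 : |(x1 : ℝ)| ≤ s1 := by
    rw [hs1]; apply Real.le_sqrt_of_sq_le; rw [sq_abs]; nlinarith [sq_nonneg (y1 : ℝ)]
  have hay1 : |(y1 : ℝ)| ≤ s1 := by
    rw [hs1]; apply Real.le_sqrt_of_sq_le; rw [sq_abs]; nlinarith [sq_nonneg (x1 : ℝ)]
  have hax2 : |(x2 : ℝ)| ≤ s2 := by
    rw [hs2]; apply Real.le_sqrt_of_sq_le; rw [sq_abs]; nlinarith [sq_nonneg (y2 : ℝ)]
  have hay2 : |(y2 : ℝ)| ≤ s2 := by
    rw [hs2]; apply Real.le_sqrt_of_sq_le; rw [sq_abs]; nlinarith [sq_nonneg (x2 : ℝ)]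
  have hD0 : (0 : ℝ) < D := by linarith
  set m0 : ℝ := (H * a0 * y2 - H * b0 * x2) / D with hm0
  set k0 : ℝ := (x1 * (H * b0) - y1 * (H * a0)) / D with hk0
  have hmx : m0 * x1 + k0 * x2 = H * a0 := by
    have e : m0 * x1 + k0 * x2 = H * a0 * (((x1 : ℝ) * y2 - x2 * y1) / D) := by
      rw [hm0, hk0]
      ring
    rw [e, hdetR, div_self hD0.ne', mul_one]
  have hmy : m0 * y1 + k0 * y2 = H * b0 := by
    have e : m0 * y1 + k0 * y2 = H * b0 * (((x1 : ℝ) * y2 - x2 * y1) / D) := by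
      rw [hm0, hk0]
      ring
    rw [e, hdetR, div_self hD0.ne', mul_one]
  have hk0b : |k0| ≤ 2 * w * H / s2 := by
    rw [hk0, abs_div, abs_of_pos hD0, div_le_div_iff₀ hD0 hs2p]
    have h1 : |(x1 : ℝ) * (H * b0) - y1 * (H * a0)| ≤ s1 * H * w := by
      calc |(x1 : ℝ) * (H * b0) - y1 * (H * a0)| ≤ |(x1 : ℝ) * (H * b0)| + |y1 * (H * a0)| := abs_sub _ _
        _ = |(x1 : ℝ)| * (H * |b0|) + |(y1 : ℝ)| * (H * |a0|) := by
          rw [abs_mul, abs_mul, abs_mul, abs_mul, abs_of_pos hH]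
        _ ≤ s1 * (H * |b0|) + s1 * (H * |a0|) :=
          add_le_add (mul_le_mul_of_nonneg_right hax1 (by positivity))
            (mul_le_mul_of_nonneg_right hay1 (by positivity))
        _ = s1 * H * w := by rw [hw]; ring
    calc |(x1 : ℝ) * (H * b0) - y1 * (H * a0)| * s2 ≤ (s1 * H * w) * s2 :=
        mul_le_mul_of_nonneg_right h1 hs2p.le
      _ = (s1 * s2) * (H * w) := by ring
      _ ≤ (2 * D) * (H * w) := mul_le_mul_of_nonneg_right hs12D (by positivity)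
      _ = 2 * w * H * D := by ring
  -- the box
  set A1 : ℝ := 2 * δ * H / (L * s1) with hA1
  set A2 : ℝ := 2 * δ * H / (L * s2) with hA2
  have hA12 : A2 ≤ A1 := by
    rw [hA1, hA2]
    exact div_le_div_of_nonneg_left (by positivity) (by positivity)
      (mul_le_mul_of_nonneg_left hs12 (by positivity))
  have hA2b : (M₀ : ℝ) + 1 ≤ A2 := by
    rw [hA2, le_div_iff₀ (by positivity)]
    have h1 : (M₀ + 1) * L / δ * D ≤ H * s1 := hHl.trans (mul_le_mul_of_nonneg_left hlam1 hH.le)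
    have h2 : ((M₀ : ℝ) + 1) * L * D ≤ δ * (H * s1) := by
      have h3 := mul_le_mul_of_nonneg_left h1 hδ0.le
      have h4 : δ * ((M₀ + 1) * L / δ * D) = ((M₀ : ℝ) + 1) * L * D := by field_simp
      rw [h4] at h3
      exact h3
    have h5 : ((M₀ : ℝ) + 1) * (L * s2) * D ≤ 2 * δ * H * D := by
      calc ((M₀ : ℝ) + 1) * (L * s2) * D = (((M₀ : ℝ) + 1) * L * D) * s2 := by ring
        _ ≤ (δ * (H * s1)) * s2 := mul_le_mul_of_nonneg_right h2 hs2p.le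
        _ = δ * H * (s1 * s2) := by ring
        _ ≤ δ * H * (2 * D) := mul_le_mul_of_nonneg_left hs12D (by positivity)
        _ = 2 * δ * H * D := by ring
    exact le_of_mul_le_mul_right h5 hD0
  set N : ℕ := ⌊A1⌋₊ with hN
  set M : ℕ := ⌊A2⌋₊ with hM
  have hMN : M ≤ N := Nat.floor_le_floor hA12
  have hMM₀ : M₀ ≤ M := Nat.le_floor (by linarith)
  have hA20 : 1 ≤ A2 := by
    have : (0 : ℝ) ≤ M₀ := by positivity
    linarith
  have hMh : A2 / 2 ≤ M := floor_half hA20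
  have hNh : A1 / 2 ≤ N := floor_half (hA20.trans hA12)
  set α : ℤ := zs * y2 - ys * z2 with hα
  set β : ℤ := -zs * y1 + ys * z1 with hβ
  have hLp : (0 : ℝ) < L := by linarith
  set i0 : ℤ := ⌈(m0 - δ * H / s1 - α) / L⌉ with hi0
  set j0 : ℤ := ⌈(k0 - δ * H / s2 - β) / L⌉ with hj0
  have hint : ∀ (c s A : ℝ) (γ : ℤ) (n : ℕ) (i : ℤ), 0 < s → A = 2 * δ * H / (L * s) → (n : ℝ) ≤ A →
      i ∈ Ico ⌈(c - δ * H / s - γ) / L⌉ (⌈(c - δ * H / s - γ) / L⌉ + n) →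
      |((γ + L * i : ℤ) : ℝ) - c| ≤ δ * H / s := by
    intro c s A γ n i hs hA hn hi
    rw [mem_Ico] at hi
    have h1 : (c - δ * H / s - γ) / L ≤ i := (Int.le_ceil _).trans (by exact_mod_cast hi.1)
    have h2 : (i : ℝ) + 1 ≤ (⌈(c - δ * H / s - γ) / L⌉ : ℝ) + n := by exact_mod_cast hi.2
    have h3 := Int.ceil_lt_add_one ((c - δ * H / s - γ) / L)
    have h4 : (i : ℝ) ≤ (c - δ * H / s - γ) / L + A := by linarith
    rw [div_le_iff₀ hLp] at h1
    have h5 : (i : ℝ) * L ≤ c - δ * H / s - γ + A * L := by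
      have h6 := mul_le_mul_of_nonneg_right h4 hLp.le
      rwa [add_mul, div_mul_cancel₀ _ hLp.ne'] at h6
    have h7 : A * L = 2 * (δ * H / s) := by
      rw [hA]
      field_simp
    rw [h7] at h5
    push_cast
    rw [abs_le]
    constructor <;> linarith
  have hcls' : ∀ p : ℕ, p.Prime → p ∣ L → ¬ ((p : ℤ) ∣ α ∧ (p : ℤ) ∣ β) := by
    rintro p hp hpL ⟨h1, h2⟩
    refine hcls p hp hpL ⟨?_, ?_⟩
    · have e : zs = α * z1 + β * z2 := by
        rw [hα, hβ]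
        linear_combination (-zs) * hdet
      rw [e]
      exact dvd_add (h1.mul_right _) (h2.mul_right _)
    · have e : ys = α * y1 + β * y2 := by
        rw [hα, hβ]
        linear_combination (-ys) * hdet
      rw [e]
      exact dvd_add (h1.mul_right _) (h2.mul_right _)
  have hMA : (M : ℝ) ≤ A2 := Nat.floor_le (by linarith)
  have hNA : (N : ℝ) ≤ A1 := Nat.floor_le (by linarith)
  have hjb : ∀ j ∈ Ico j0 (j0 + M), |β + L * j| ≤ ((⌈(2 * w + δ) * L / δ⌉₊ + 1 : ℕ) : ℤ) * M := by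
    intro j hj
    have h1 := hint k0 s2 A2 β M j hs2p hA2 hMA hj
    have h2 : |((β + L * j : ℤ) : ℝ)| ≤ ((⌈(2 * w + δ) * L / δ⌉₊ + 1 : ℕ) : ℝ) * M := by
      have h3 : |((β + L * j : ℤ) : ℝ)| ≤ |((β + L * j : ℤ) : ℝ) - k0| + |k0| := by
        have := abs_add_le (((β + L * j : ℤ) : ℝ) - k0) k0
        rwa [sub_add_cancel] at this
      have h4 : |((β + L * j : ℤ) : ℝ)| ≤ (2 * w + δ) * H / s2 := by
        refine h3.trans ((add_le_add h1 hk0b).trans (le_of_eq ?_))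
        ring
      have h5 : (2 * w + δ) * H / s2 = ((2 * w + δ) * L / δ) * (A2 / 2) := by
        rw [hA2]
        field_simp
      rw [h5] at h4
      refine h4.trans (mul_le_mul ?_ hMh (by positivity) (by positivity))
      push_cast
      exact (Nat.le_ceil _).trans (by linarith)
    exact_mod_cast h2
  have hM64 : 64 ≤ M := (by rw [hM₀e]; exact le_max_right _ _ : 64 ≤ M₀).trans hMM₀
  have hcount := hM₁ N M ((by rw [hM₀e]; exact le_max_left _ _ : M₁ ≤ M₀).trans hMM₀) hMN α β i0 j0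
    hcls' (by exact_mod_cast hjb)
  set R := ((Ico i0 (i0 + N) ×ˢ Ico j0 (j0 + M)).filter
      (fun t => IsCoprime (α + L * t.1) (β + L * t.2))) with hR
  have hrem₁ := rem_count L p₁ hp₁ h64₁ hp₁L N M hM64 hMN α β i0 j0 y1 y2 z1 z2 hdet
  have hrem₂ := rem_count L p₂ hp₂ h64₂ hp₂L N M hM64 hMN α β i0 j0 y1 y2 z1 z2 hdet
  set R' := R.filter (fun t => ¬ (p₁ : ℤ) ∣ (α + L * t.1) * y1 + (β + L * t.2) * y2 ∧
      ¬ (p₂ : ℤ) ∣ (α + L * t.1) * y1 + (β + L * t.2) * y2) with hR'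
  have hR'card : (N : ℝ) * M / 16 ≤ (R'.card : ℝ) := by
    have hsub : R ⊆ R' ∪ (((Ico i0 (i0 + N) ×ˢ Ico j0 (j0 + M)).filter
        (fun t => (p₁ : ℤ) ∣ (α + L * t.1) * y1 + (β + L * t.2) * y2)) ∪
        ((Ico i0 (i0 + N) ×ˢ Ico j0 (j0 + M)).filter
        (fun t => (p₂ : ℤ) ∣ (α + L * t.1) * y1 + (β + L * t.2) * y2))) := by
      intro t ht
      have ht' := ht
      rw [hR, mem_filter] at ht'
      by_cases h1 : (p₁ : ℤ) ∣ (α + L * t.1) * y1 + (β + L * t.2) * y2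
      · exact mem_union_right _ (mem_union_left _ (mem_filter.mpr ⟨ht'.1, h1⟩))
      by_cases h2 : (p₂ : ℤ) ∣ (α + L * t.1) * y1 + (β + L * t.2) * y2
      · exact mem_union_right _ (mem_union_right _ (mem_filter.mpr ⟨ht'.1, h2⟩))
      · exact mem_union_left _ (mem_filter.mpr ⟨ht, h1, h2⟩)
    have h1 := (card_le_card hsub).trans ((card_union_le _ _).trans
      (Nat.add_le_add_left (card_union_le _ _) _))
    have h2 : (R.card : ℝ) ≤ (R'.card : ℝ) + ((((Ico i0 (i0 + N) ×ˢ Ico j0 (j0 + M)).filter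
        (fun t => (p₁ : ℤ) ∣ (α + L * t.1) * y1 + (β + L * t.2) * y2)).card : ℝ) +
        (((Ico i0 (i0 + N) ×ˢ Ico j0 (j0 + M)).filter
        (fun t => (p₂ : ℤ) ∣ (α + L * t.1) * y1 + (β + L * t.2) * y2)).card : ℝ)) := by
      exact_mod_cast h1
    linarith
  set φ : ℤ × ℤ → ℤ × ℤ := fun t => ((α + L * t.1) * x1 + (β + L * t.2) * x2,
    (α + L * t.1) * y1 + (β + L * t.2) * y2) with hφ
  have hinj : Function.Injective φ := by
    intro t t' h
    rw [hφ, Prod.mk.injEq] at h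
    obtain ⟨h1, h2⟩ := h
    have hL0 : (L : ℤ) ≠ 0 := by exact_mod_cast (by omega : L ≠ 0)
    have hDne : (D : ℤ) ≠ 0 := by omega
    have h3 : (D : ℤ) * (L * (t.1 - t'.1)) = 0 := by
      rw [← hdetx]
      linear_combination y2 * h1 - x2 * h2
    have h4 : (D : ℤ) * (L * (t.2 - t'.2)) = 0 := by
      rw [← hdetx]
      linear_combination x1 * h2 - y1 * h1
    have h5 : t.1 = t'.1 := by
      have := (mul_eq_zero.1 ((mul_eq_zero.1 h3).resolve_left hDne)).resolve_left hL0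
      omega
    have h6 : t.2 = t'.2 := by
      have := (mul_eq_zero.1 ((mul_eq_zero.1 h4).resolve_left hDne)).resolve_left hL0
      omega
    exact Prod.ext h5 h6
  refine ⟨R'.image φ, ?_, ?_⟩
  · rw [card_image_of_injective _ hinj]
    refine le_trans ?_ hR'card
    have h1 : A1 / 2 * (A2 / 2) ≤ (N : ℝ) * M := mul_le_mul hNh hMh (by linarith) (by positivity)
    have h2 : δ ^ 2 / (32 * L ^ 2) * H ^ 2 / D ≤ A1 / 2 * (A2 / 2) / 16 := by
      rw [hA1, hA2]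
      have e : 2 * δ * H / (L * s1) / 2 * (2 * δ * H / (L * s2) / 2) / 16 =
          δ ^ 2 * H ^ 2 / (16 * L ^ 2 * (s1 * s2)) := by
        field_simp
      have e2 : δ ^ 2 / (32 * (L : ℝ) ^ 2) * H ^ 2 / D = δ ^ 2 * H ^ 2 / (16 * L ^ 2 * (2 * D)) := by
        field_simp
        ring
      rw [e, e2]
      exact div_le_div_of_nonneg_left (by positivity) (by positivity)
        (mul_le_mul_of_nonneg_left hs12D (by positivity))
    linarith
  · intro t ht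
    rw [mem_image] at ht
    obtain ⟨r, hr0, rfl⟩ := ht
    rw [hR', mem_filter] at hr0
    obtain ⟨hr, hnd₁, hnd₂⟩ := hr0
    rw [hR, mem_filter, mem_product] at hr
    obtain ⟨⟨hr1, hr2⟩, hr3⟩ := hr
    have hr1' : |((α + L * r.1 : ℤ) : ℝ) - m0| ≤ δ * H / s1 := hint m0 s1 A1 α N r.1 hs1p hA1 hNA hr1
    have hr2' : |((β + L * r.2 : ℤ) : ℝ) - k0| ≤ δ * H / s2 := hint k0 s2 A2 β M r.2 hs2p hA2 hMA hr2
    refine ⟨(α + L * r.1) * z1 + (β + L * r.2) * z2, ?_, ?_, ?_, ?_, ?_, ?_, hnd₁, hnd₂⟩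
    · simp only [hφ, hx1, hx2]
      ring
    · obtain ⟨u, v, huv⟩ := hr3
      refine ⟨u * y2 - v * y1, -u * z2 + v * z1, ?_⟩
      simp only [hφ]
      linear_combination huv + (u * (α + L * r.1) + v * (β + L * r.2)) * hdet
    · refine ⟨r.1 * z1 + r.2 * z2, ?_⟩
      rw [hα, hβ]
      linear_combination zs * hdet
    · refine ⟨r.1 * y1 + r.2 * y2, ?_⟩
      simp only [hφ]
      rw [hα, hβ]
      linear_combination ys * hdet
    · simp only [hφ]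
      push_cast
      push_cast at hr1' hr2'
      have e : ((α : ℝ) + L * r.1) * x1 + (β + L * r.2) * x2 - H * a0 =
          (α + L * r.1 - m0) * x1 + (β + L * r.2 - k0) * x2 := by
        rw [← hmx]; ring
      rw [e]
      calc |((α : ℝ) + L * r.1 - m0) * x1 + (β + L * r.2 - k0) * x2|
          ≤ |((α : ℝ) + L * r.1 - m0) * x1| + |((β : ℝ) + L * r.2 - k0) * x2| := abs_add_le _ _
        _ = |(α : ℝ) + L * r.1 - m0| * |(x1 : ℝ)| + |(β : ℝ) + L * r.2 - k0| * |(x2 : ℝ)| := by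
          rw [abs_mul, abs_mul]
        _ ≤ (δ * H / s1) * s1 + (δ * H / s2) * s2 :=
          add_le_add (mul_le_mul hr1' hax1 (abs_nonneg _) (by positivity))
            (mul_le_mul hr2' hax2 (abs_nonneg _) (by positivity))
        _ = η * H := by
          rw [div_mul_cancel₀ _ hs1p.ne', div_mul_cancel₀ _ hs2p.ne', hδ]
          ring
    · simp only [hφ]
      push_cast
      push_cast at hr1' hr2'
      have e : ((α : ℝ) + L * r.1) * y1 + (β + L * r.2) * y2 - H * b0 =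
          (α + L * r.1 - m0) * y1 + (β + L * r.2 - k0) * y2 := by
        rw [← hmy]; ring
      rw [e]
      calc |((α : ℝ) + L * r.1 - m0) * y1 + (β + L * r.2 - k0) * y2|
          ≤ |((α : ℝ) + L * r.1 - m0) * y1| + |((β : ℝ) + L * r.2 - k0) * y2| := abs_add_le _ _
        _ = |(α : ℝ) + L * r.1 - m0| * |(y1 : ℝ)| + |(β : ℝ) + L * r.2 - k0| * |(y2 : ℝ)| := by
          rw [abs_mul, abs_mul]
        _ ≤ (δ * H / s1) * s1 + (δ * H / s2) * s2 :=
          add_le_add (mul_le_mul hr1' hay1 (abs_nonneg _) (by positivity))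
            (mul_le_mul hr2' hay2 (abs_nonneg _) (by positivity))
        _ = η * H := by
          rw [div_mul_cancel₀ _ hs1p.ne', div_mul_cancel₀ _ hs2p.ne', hδ]
          ring

end Pool.Agent.H461.Cyc
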