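import Pool.Agent.H461.Fam.Main

/-!
# The choice of the parameters
-/

set_option autoImplicit false

namespace Pool.Agent.H461.Cyc

open Pool.Agent.H461.Fam

theorem log_N (A₁ ν d : ℝ) (hA : 1 ≤ A₁) (hν : 0 < ν) (hd : 0 < d) : ∃ C : ℝ, 0 < C ∧
    ∀ (B : ℝ) (N : ℕ), 1 ≤ B → 1 ≤ N → (N : ℝ) ≤ 4 * A₁ * B ^ ν → Real.log N ≤ C * B ^ d := by
  refine ⟨Real.log (4 * A₁) + ν / d, ?_, fun B N hB hN hNB => ?_⟩
  · have : 0 ≤ Real.log (4 * A₁) := Real.log_nonneg (by linarith)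
    positivity
  have hB0 : 0 < B := by linarith
  have hN0 : (0 : ℝ) < N := by exact_mod_cast hN
  have h1 := Real.log_le_log hN0 hNB
  rw [Real.log_mul (by positivity) (by positivity), Real.log_rpow hB0] at h1
  have h2 : Real.log B ≤ B ^ d / d := Real.log_le_rpow_div hB0.le hd
  have h3 : 1 ≤ B ^ d := Real.one_le_rpow hB hd.le
  have h4 : 0 ≤ Real.log (4 * A₁) := Real.log_nonneg (by linarith)
  have h5 : Real.log (4 * A₁) ≤ Real.log (4 * A₁) * B ^ d := le_mul_of_one_le_right h4 h3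
  have h6 : ν * Real.log B ≤ ν * (B ^ d / d) := mul_le_mul_of_nonneg_left h2 hν.le
  have h7 : ν * (B ^ d / d) = ν / d * B ^ d := by ring
  rw [add_mul]
  linarith

theorem params (m q K K' N₀ : ℕ) (ν d A₁ CL Cg CF c₁ c₂ : ℝ) (hν : 0 < ν)
    (hνm : (2 * m - 1) * ν < 1) (hd : 0 < d) (hdν : d ≤ ν) (hdm : d ≤ 1 - (2 * m - 1) * ν)
    (hA : 1 ≤ A₁) (hCL : 0 < CL) (hCg : 1 ≤ Cg) (hCF : 1 ≤ CF) (hK' : (q : ℝ) + 1 ≤ ν * (K' + 1))
    (hc₁ : 0 < c₁) (hc₂ : 0 < c₂) :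
    ∃ c₃ B₁ : ℝ, 0 < c₃ ∧ 1 ≤ B₁ ∧ ∀ B : ℝ, B₁ ≤ B → ∀ N : ℕ, N = ⌈A₁ * B ^ ν⌉₊ →
      A₁ * B ^ ν ≤ N ∧ (N : ℝ) ≤ 2 * A₁ * B ^ ν ∧ N₀ ≤ N ∧
      Cg * (CL * B ^ (2 * m * ν - 1) + 1) < N ∧ CF * B ^ q < (N : ℝ) ^ (K' + 1) ∧
      ∀ w₁ w₂ : ℝ, 0 ≤ w₁ → 0 ≤ w₂ → c₁ * N ≤ Real.log N * w₁ →
        c₂ * ((2 * N : ℕ) : ℝ) ≤ Real.log ((2 * N : ℕ) : ℝ) * w₂ →
        c₃ * B ^ (2 * ν - d) ≤ w₁ * w₂ ∧
        18 * (K : ℝ) ^ 2 * (CL * B ^ (2 * m * ν - 1) + 1) ^ 2 ≤ w₁ * w₂ := by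
  obtain ⟨C₁, hC₁, hlog⟩ := log_N A₁ ν (d / 2) hA hν (by positivity)
  obtain ⟨c₃, hc₃⟩ : ∃ c₃ : ℝ, c₃ = 2 * c₁ * c₂ / C₁ ^ 2 := ⟨_, rfl⟩
  have hc₃0 : 0 < c₃ := by rw [hc₃]; positivity
  obtain ⟨X₀, hX₀⟩ := pow_small 0 ν (1 / (N₀ + 1)) hν (by positivity)
  obtain ⟨X₁, hX₁⟩ := pow_small (2 * m * ν - 1) ν (1 / (4 * Cg * CL)) (by linarith) (by positivity)
  obtain ⟨X₂, hX₂⟩ := pow_small 0 ν (1 / (4 * Cg)) hν (by positivity)
  obtain ⟨X₃, hX₃⟩ := pow_small (2 * (2 * m * ν - 1)) (2 * ν - d)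
    (c₃ / (72 * ((K : ℝ) ^ 2 + 1) * CL ^ 2)) (by linarith) (by positivity)
  obtain ⟨X₄, hX₄⟩ := pow_small 0 (2 * ν - d) (c₃ / (72 * ((K : ℝ) ^ 2 + 1))) (by linarith)
    (by positivity)
  refine ⟨c₃, max 1 (max (CF + 1) (max X₀ (max X₁ (max X₂ (max X₃ X₄))))), hc₃0, le_max_left _ _, ?_⟩
  intro B hB N hN
  have hB1 : 1 ≤ B := (le_max_left _ _).trans hB
  have hB' := (le_max_right _ _).trans hB
  have hBCF : CF + 1 ≤ B := (le_max_left _ _).trans hB'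
  have hB'' := (le_max_right _ _).trans hB'
  have hBX₀ : X₀ ≤ B := (le_max_left _ _).trans hB''
  have hB3 := (le_max_right _ _).trans hB''
  have hBX₁ : X₁ ≤ B := (le_max_left _ _).trans hB3
  have hB4 := (le_max_right _ _).trans hB3
  have hBX₂ : X₂ ≤ B := (le_max_left _ _).trans hB4
  have hB5 := (le_max_right _ _).trans hB4
  have hBX₃ : X₃ ≤ B := (le_max_left _ _).trans hB5
  have hBX₄ : X₄ ≤ B := (le_max_right _ _).trans hB5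
  have hB0 : 0 < B := by linarith
  have hBν : 1 ≤ B ^ ν := Real.one_le_rpow hB1 hν.le
  have hABν : 1 ≤ A₁ * B ^ ν := one_le_mul_of_one_le_of_one_le hA hBν
  have hN1 : A₁ * B ^ ν ≤ N := by rw [hN]; exact Nat.le_ceil _
  have hN2 : (N : ℝ) ≤ 2 * A₁ * B ^ ν := by
    rw [hN]
    have := Nat.ceil_lt_add_one (by linarith : 0 ≤ A₁ * B ^ ν)
    linarith
  have hBN : B ^ ν ≤ N := (le_mul_of_one_le_left (by linarith) hA).trans hN1
  have hN1' : (1 : ℝ) ≤ N := hBν.trans hBN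
  have hNn : 1 ≤ N := by exact_mod_cast hN1'
  refine ⟨hN1, hN2, ?_, ?_, ?_, ?_⟩
  · have h1 := hX₀ B hBX₀
    rw [Real.rpow_zero] at h1
    have h2 : (N₀ : ℝ) + 1 ≤ B ^ ν := by
      have h3 : (0 : ℝ) < N₀ + 1 := by positivity
      rw [one_div, ← div_eq_inv_mul, le_div_iff₀ h3, one_mul] at h1
      exact h1
    have h3 : (N₀ : ℝ) ≤ N := by linarith
    exact_mod_cast h3
  · have h1 := hX₁ B hBX₁
    have h2 := hX₂ B hBX₂
    rw [Real.rpow_zero] at h2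
    have h3 : Cg * (CL * B ^ (2 * (m : ℝ) * ν - 1)) ≤ 1 / 4 * B ^ ν := by
      calc Cg * (CL * B ^ (2 * (m : ℝ) * ν - 1)) ≤ Cg * (CL * (1 / (4 * Cg * CL) * B ^ ν)) :=
            mul_le_mul_of_nonneg_left (mul_le_mul_of_nonneg_left h1 hCL.le) (by linarith)
        _ = 1 / 4 * B ^ ν := by field_simp
    have h4 : Cg ≤ 1 / 4 * B ^ ν := by
      calc Cg = Cg * 1 := (mul_one _).symm
        _ ≤ Cg * (1 / (4 * Cg) * B ^ ν) := mul_le_mul_of_nonneg_left h2 (by linarith)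
        _ = 1 / 4 * B ^ ν := by field_simp
    rw [mul_add, mul_one]
    linarith
  · have h1 : B ^ ((q : ℝ) + 1) ≤ (N : ℝ) ^ (K' + 1) := by
      calc B ^ ((q : ℝ) + 1) ≤ B ^ (ν * ((K' : ℝ) + 1)) :=
            Real.rpow_le_rpow_of_exponent_le hB1 hK'
        _ = (B ^ ν) ^ (K' + 1) := by
          rw [Real.rpow_mul hB0.le, ← Real.rpow_natCast]
          push_cast
          rfl
        _ ≤ _ := pow_le_pow_left₀ (by linarith) hBN _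
    refine lt_of_lt_of_le ?_ h1
    rw [Real.rpow_add hB0, Real.rpow_natCast, Real.rpow_one, mul_comm]
    exact mul_lt_mul_of_pos_left (by linarith) (by positivity)
  · intro w₁ w₂ hw₁ hw₂ h₁ h₂
    have l1 : Real.log N ≤ C₁ * B ^ (d / 2) := hlog B N hB1 hNn (by
      have : 0 ≤ A₁ * B ^ ν := by positivity
      linarith)
    have l2 : Real.log ((2 * N : ℕ) : ℝ) ≤ C₁ * B ^ (d / 2) := hlog B (2 * N) hB1 (by omega) (by
      push_cast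
      linarith)
    have a1 : c₁ * N ≤ (C₁ * B ^ (d / 2)) * w₁ := h₁.trans (mul_le_mul_of_nonneg_right l1 hw₁)
    have a2 : c₂ * (2 * N) ≤ (C₁ * B ^ (d / 2)) * w₂ := by
      refine le_trans (le_of_eq ?_) (h₂.trans (mul_le_mul_of_nonneg_right l2 hw₂))
      push_cast
      ring
    have a3 : (c₁ * N) * (c₂ * (2 * N)) ≤ ((C₁ * B ^ (d / 2)) * w₁) * ((C₁ * B ^ (d / 2)) * w₂) :=
      mul_le_mul a1 a2 (by positivity) (by positivity)
    have e1 : B ^ (d / 2) * B ^ (d / 2) = B ^ d := by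
      rw [← Real.rpow_add hB0]
      congr 1
      ring
    have e2 : B ^ (2 * ν - d) * B ^ d = B ^ ν * B ^ ν := by
      rw [← Real.rpow_add hB0, ← Real.rpow_add hB0]
      congr 1
      ring
    have hBd : 0 < B ^ d := by positivity
    have key : c₃ * B ^ (2 * ν - d) ≤ w₁ * w₂ := by
      have b1 : (2 * c₁ * c₂) * (B ^ ν * B ^ ν) ≤ C₁ ^ 2 * B ^ d * (w₁ * w₂) := by
        calc (2 * c₁ * c₂) * (B ^ ν * B ^ ν) ≤ (2 * c₁ * c₂) * ((N : ℝ) * N) :=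
              mul_le_mul_of_nonneg_left (mul_le_mul hBN hBN (by positivity) (by positivity))
                (by positivity)
          _ = (c₁ * N) * (c₂ * (2 * N)) := by ring
          _ ≤ ((C₁ * B ^ (d / 2)) * w₁) * ((C₁ * B ^ (d / 2)) * w₂) := a3
          _ = C₁ ^ 2 * (B ^ (d / 2) * B ^ (d / 2)) * (w₁ * w₂) := by ring
          _ = _ := by rw [e1]
      rw [← e2] at b1
      have b2 : (C₁ ^ 2 * B ^ d) * (c₃ * B ^ (2 * ν - d)) ≤ (C₁ ^ 2 * B ^ d) * (w₁ * w₂) := by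
        refine le_trans (le_of_eq ?_) b1
        rw [hc₃]
        field_simp
      exact le_of_mul_le_mul_left b2 (by positivity)
    refine ⟨key, le_trans ?_ key⟩
    have h1 := hX₃ B hBX₃
    have h2 := hX₄ B hBX₄
    rw [Real.rpow_zero] at h2
    have hK1 : (0 : ℝ) ≤ (K : ℝ) ^ 2 := by positivity
    have h3 : (CL * B ^ (2 * (m : ℝ) * ν - 1) + 1) ^ 2 ≤
        2 * CL ^ 2 * B ^ (2 * (2 * (m : ℝ) * ν - 1)) + 2 := by
      have e : B ^ (2 * (2 * (m : ℝ) * ν - 1)) = (B ^ (2 * (m : ℝ) * ν - 1)) ^ 2 := by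
        rw [← Real.rpow_natCast, ← Real.rpow_mul hB0.le]
        congr 1
        push_cast
        ring
      rw [e]
      have := sq_nonneg (CL * B ^ (2 * (m : ℝ) * ν - 1) - 1)
      linarith [this, (by ring : (CL * B ^ (2 * (m : ℝ) * ν - 1) - 1) ^ 2 =
        2 * (CL ^ 2 * (B ^ (2 * (m : ℝ) * ν - 1)) ^ 2) + 2 -
          (CL * B ^ (2 * (m : ℝ) * ν - 1) + 1) ^ 2)]
    have h4 : 18 * (K : ℝ) ^ 2 * (2 * CL ^ 2 * B ^ (2 * (2 * (m : ℝ) * ν - 1))) ≤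
        1 / 2 * (c₃ * B ^ (2 * ν - d)) := by
      calc 18 * (K : ℝ) ^ 2 * (2 * CL ^ 2 * B ^ (2 * (2 * (m : ℝ) * ν - 1)))
          ≤ 18 * ((K : ℝ) ^ 2 + 1) * (2 * CL ^ 2 * (c₃ / (72 * ((K : ℝ) ^ 2 + 1) * CL ^ 2) *
            B ^ (2 * ν - d))) := by
            refine mul_le_mul (by linarith) (mul_le_mul_of_nonneg_left h1 (by positivity))
              (by positivity) (by positivity)
        _ = 1 / 2 * (c₃ * B ^ (2 * ν - d)) := by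
            field_simp
            ring
    have h5 : 18 * (K : ℝ) ^ 2 * 2 ≤ 1 / 2 * (c₃ * B ^ (2 * ν - d)) := by
      calc 18 * (K : ℝ) ^ 2 * 2 ≤ 18 * ((K : ℝ) ^ 2 + 1) * (2 * (c₃ / (72 * ((K : ℝ) ^ 2 + 1)) *
            B ^ (2 * ν - d))) := by
            refine mul_le_mul (by linarith) ?_ (by positivity) (by positivity)
            linarith
        _ = 1 / 2 * (c₃ * B ^ (2 * ν - d)) := by
            field_simp
            ring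
    calc 18 * (K : ℝ) ^ 2 * (CL * B ^ (2 * (m : ℝ) * ν - 1) + 1) ^ 2
        ≤ 18 * (K : ℝ) ^ 2 * (2 * CL ^ 2 * B ^ (2 * (2 * (m : ℝ) * ν - 1)) + 2) :=
          mul_le_mul_of_nonneg_left h3 (by positivity)
      _ = 18 * (K : ℝ) ^ 2 * (2 * CL ^ 2 * B ^ (2 * (2 * (m : ℝ) * ν - 1))) +
          18 * (K : ℝ) ^ 2 * 2 := by ring
      _ ≤ _ := by linarith

end Pool.Agent.H461.Cyc
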