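import Pool.Agent.H461.Cyc.Asm
import Pool.Agent.H461.Cyc.Par

/-!
# Many points where the form is divisible by the power of a large number: the count
-/

set_option autoImplicit false

namespace Pool.Agent.H461.Cyc

open Finset Polynomial
open Pool.Agent.Y670.RD Pool.Agent.H461.Fam Pool.Agent.H461.Low

theorem low_pow (f : ℤ[X]) (q : ℕ) (hf : Squarefree (f.map (Int.castRingHom ℚ)))
    (hd2 : 2 ≤ f.natDegree) (hdq : f.natDegree ≤ q) (t₀ : ℚ) (h₀ : aeval (t₀ : ℝ) f ≠ 0)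
    (Q : ℕ) (hQ : 1 ≤ Q) (η : ℝ) (hη : 0 < η) (m : ℕ) (hm : 2 ≤ m) (ν : ℝ) (hν : 0 < ν)
    (hνm : (2 * m - 1) * ν < 1) (A d : ℝ) (hd : 0 < d) (hdν : d ≤ ν)
    (hdm : d ≤ 1 - (2 * m - 1) * ν) :
    ∃ c B₀ : ℝ, 0 < c ∧ ∀ B : ℝ, B₀ ≤ B → ∃ S : Finset (ℤ × ℤ),
      c * B ^ (2 - 2 * (m - 1) * ν - d) ≤ (S.card : ℝ) ∧
      ∀ p ∈ S, IsCoprime p.1 p.2 ∧ 0 < p.2 ∧ |(p.1 : ℝ) / p.2 - t₀| < η ∧
        (Q : ℤ) ∣ p.1 - t₀.num ∧ (Q : ℤ) ∣ p.2 - t₀.den ∧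
        max |(p.1 : ℝ)| |(p.2 : ℝ)| ≤ B ∧ fv q f p.1 p.2 ≠ 0 ∧
        ∃ n k : ℤ, 0 < n ∧ fv q f p.1 p.2 = n ^ m * k ∧ A * B ^ (2 * (m - 1) * ν) ≤ (n : ℝ) ^ (m - 1) := by
  classical
  set r := f.natDegree with hr
  obtain ⟨g₁, g₂, hg₁, hg₂, hgf₁, hgf₂, hno⟩ := exists_factors f hf hd2
  obtain ⟨M, hM, hroot⟩ := pair_root f g₁ g₂ hg₁ hg₂ hgf₁ hgf₂ m
  obtain ⟨c₁, hc₁, N₁, hW₁⟩ := many_primes g₁ hg₁ M hM
  obtain ⟨c₂, hc₂, N₂, hW₂⟩ := many_primes g₂ hg₂ M hM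
  obtain ⟨η₁, hη₁, hη₁', hne⟩ := near_ne f h₀ η hη
  obtain ⟨η₂, hη₂⟩ : ∃ η₂ : ℝ, η₂ = min (1 / 2) (η₁ / (4 * (1 + |(t₀ : ℝ)|))) := ⟨_, rfl⟩
  have hη₂0 : 0 < η₂ := by rw [hη₂]; positivity
  have hη₂1 : η₂ ≤ 1 / 2 := by rw [hη₂]; exact min_le_left _ _
  have hη₂2 : η₂ ≤ η₁ / (4 * (1 + |(t₀ : ℝ)|)) := by rw [hη₂]; exact min_le_right _ _
  obtain ⟨C₀, c₀, hC₀, hc₀, hpair⟩ := one_pair Q hQ t₀ η₂ hη₂0 m
  have ht0 : 0 ≤ |(t₀ : ℝ)| := abs_nonneg _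
  obtain ⟨T, hT⟩ : ∃ T : ℝ, T = |(t₀ : ℝ)| + 2 := ⟨_, rfl⟩
  have hT2 : 2 ≤ T := by rw [hT]; linarith
  obtain ⟨A₁, hA₁⟩ : ∃ A₁ : ℝ, A₁ = max 1 A := ⟨_, rfl⟩
  have hA₁1 : 1 ≤ A₁ := by rw [hA₁]; exact le_max_left _ _
  have hAA₁ : A ≤ A₁ := by rw [hA₁]; exact le_max_right _ _
  obtain ⟨CD, hCD⟩ : ∃ CD : ℝ, CD = (32 * A₁ ^ 2) ^ m := ⟨_, rfl⟩
  have hCD0 : 0 < CD := by rw [hCD]; positivity
  obtain ⟨CL, hCL⟩ : ∃ CL : ℝ, CL = C₀ * CD * T := ⟨_, rfl⟩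
  have hCL0 : 0 < CL := by rw [hCL]; positivity
  obtain ⟨Cg, hCg⟩ : ∃ Cg : ℝ, Cg = 1 + ∑ i ∈ range (g₁.natDegree + 1), |(g₁.coeff i : ℝ)| +
    ∑ i ∈ range (g₂.natDegree + 1), |(g₂.coeff i : ℝ)| := ⟨_, rfl⟩
  have hs₁ : (0 : ℝ) ≤ ∑ i ∈ range (g₁.natDegree + 1), |(g₁.coeff i : ℝ)| :=
    sum_nonneg fun i _ => abs_nonneg _
  have hs₂ : (0 : ℝ) ≤ ∑ i ∈ range (g₂.natDegree + 1), |(g₂.coeff i : ℝ)| :=
    sum_nonneg fun i _ => abs_nonneg _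
  obtain ⟨CF, hCF⟩ : ∃ CF : ℝ, CF = 1 + ∑ i ∈ range (q + 1), |(f.coeff i : ℝ)| := ⟨_, rfl⟩
  have hCF1 : 1 ≤ CF := by
    rw [hCF]
    have : (0 : ℝ) ≤ ∑ i ∈ range (q + 1), |(f.coeff i : ℝ)| := sum_nonneg fun i _ => abs_nonneg _
    linarith
  obtain ⟨K, hK⟩ : ∃ K : ℕ, K = g₁.natDegree + g₂.natDegree := ⟨_, rfl⟩
  have hd₁ : 1 ≤ g₁.natDegree := by
    have := hg₁.natDegree_pos
    rwa [natDegree_map_eq_of_injective Int.cast_injective g₁] at this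
  have hd₂ : 1 ≤ g₂.natDegree := by
    have := hg₂.natDegree_pos
    rwa [natDegree_map_eq_of_injective Int.cast_injective g₂] at this
  obtain ⟨K', hK'⟩ : ∃ K' : ℕ, (q : ℝ) + 1 ≤ ν * (K' + 1) := by
    refine ⟨⌈((q : ℝ) + 1) / ν⌉₊, ?_⟩
    have h1 := Nat.le_ceil (((q : ℝ) + 1) / ν)
    rw [div_le_iff₀ hν] at h1
    linarith
  have hK'1 : 1 ≤ K' + 1 := by omega
  obtain ⟨c₃, B₁, hc₃, hB₁1, hpar⟩ := params m q K K' (max (max N₁ N₂) (max 64 Q)) ν d A₁ CL Cg CF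
    c₁ c₂ hν hνm hd hdν hdm hA₁1 hCL0 (by rw [hCg]; linarith) hCF1 hK' hc₁ hc₂
  refine ⟨c₀ * c₃ / (2 * (K' + 1 : ℕ) ^ 2 * CD * T ^ 2), B₁, by positivity, fun B hB => ?_⟩
  have hB1 : 1 ≤ B := hB₁1.trans hB
  have hB0 : 0 < B := by linarith
  obtain ⟨N, hN⟩ : ∃ N : ℕ, N = ⌈A₁ * B ^ ν⌉₊ := ⟨_, rfl⟩
  obtain ⟨hNlo, hNup, hN₀, hlamN, hFN, hww⟩ := hpar B hB N hN
  have hNN₁ : N₁ ≤ N := ((le_max_left _ _).trans (le_max_left _ _)).trans hN₀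
  have hNN₂ : N₂ ≤ N := ((le_max_right _ _).trans (le_max_left _ _)).trans hN₀
  have hN64 : 64 ≤ N := ((le_max_left _ _).trans (le_max_right _ _)).trans hN₀
  have hNQ : Q ≤ N := ((le_max_right _ _).trans (le_max_right _ _)).trans hN₀
  obtain ⟨W₁, hW₁c, hW₁p⟩ := hW₁ N hNN₁
  obtain ⟨W₂, hW₂c, hW₂p⟩ := hW₂ (2 * N) (by omega)
  obtain ⟨hw1, hw2⟩ := hww W₁.card W₂.card (by positivity) (by positivity) hW₁c hW₂c
  obtain ⟨lam, hlam⟩ : ∃ lam : ℝ, lam = CL * B ^ (2 * m * ν - 1) + 1 := ⟨_, rfl⟩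
  have hlam1 : 1 ≤ lam := by
    rw [hlam]
    have : 0 < CL * B ^ (2 * m * ν - 1) := by positivity
    linarith
  obtain ⟨H, hH⟩ : ∃ H : ℝ, H = B / T := ⟨_, rfl⟩
  have hHp : 0 < H := by rw [hH]; positivity
  have hHT : T * H = B := by rw [hH]; field_simp
  have hBν : 0 < B ^ ν := by positivity
  -- the roots
  have hrt : ∀ p : ℕ × ℕ, ∃ ρ : ℤ, p ∈ W₁ ×ˢ W₂ → (p.1 : ℤ) ^ m ∣ g₁.eval ρ ∧
      (p.2 : ℤ) ^ m ∣ g₂.eval ρ ∧ (((p.1 * p.2) ^ m : ℕ) : ℤ) ∣ f.eval ρ := by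
    intro p
    by_cases hp : p ∈ W₁ ×ˢ W₂
    · rw [mem_product] at hp
      obtain ⟨a1, a2, a3, a4, a5⟩ := hW₁p p.1 hp.1
      obtain ⟨b1, b2, b3, b4, b5⟩ := hW₂p p.2 hp.2
      obtain ⟨ρ, h1, h2, h3⟩ := hroot p.1 p.2 a1 b1 (by omega) a4 b4 a5 b5
      exact ⟨ρ, fun _ => ⟨h1, h2, h3⟩⟩
    · exact ⟨0, fun h => absurd h hp⟩
  choose ρ hρ using hrt
  -- bad pairs
  obtain ⟨bad, hbad⟩ : ∃ bad : Finset (ℕ × ℕ), bad = (W₁ ×ˢ W₂).filter (fun p => ∃ x y : ℤ,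
      ¬ (x = 0 ∧ y = 0) ∧ max |(x : ℝ)| |(y : ℝ)| < lam ∧
      (((p.1 * p.2) ^ m : ℕ) : ℤ) ∣ x - ρ p * y) := ⟨_, rfl⟩
  have hbadc : (bad.card : ℝ) ≤ 9 * (K : ℝ) ^ 2 * lam ^ 2 := by
    refine few_bad g₁ g₂ m (by omega) W₁ W₂ N K lam Cg (by omega) (by omega) hd₁ hd₂
      (by rw [hCg]; linarith) (by rw [hCg]; linarith) (by rw [hCg]; linarith) hlam1
      (by rw [hlam]; exact hlamN) (fun p hp => ⟨(hW₁p p hp).1, (hW₁p p hp).2.1⟩)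
      (fun p hp => ⟨(hW₂p p hp).1, by have := (hW₂p p hp).2.1; omega⟩) hno bad ?_
    intro p hp
    rw [hbad, mem_filter] at hp
    obtain ⟨hp1, x, y, h1, h2, h3⟩ := hp
    obtain ⟨h4, h5, -⟩ := hρ p hp1
    rw [mem_product] at hp1
    have e1 : (p.1 : ℤ) ^ m ∣ (((p.1 * p.2) ^ m : ℕ) : ℤ) := by
      push_cast
      rw [mul_pow]
      exact dvd_mul_right _ _
    have e2 : (p.2 : ℤ) ^ m ∣ (((p.1 * p.2) ^ m : ℕ) : ℤ) := by
      push_cast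
      rw [mul_pow]
      exact dvd_mul_left _ _
    exact ⟨hp1.1, hp1.2, x, y, h1, h2, dvd_fv g₁ _ _ _ _ (e1.trans h3) h4,
      dvd_fv g₂ _ _ _ _ (e2.trans h3) h5⟩
  obtain ⟨I, hI⟩ : ∃ I : Finset (ℕ × ℕ), I = (W₁ ×ˢ W₂) \ bad := ⟨_, rfl⟩
  have hIc : c₃ / 2 * B ^ (2 * ν - d) ≤ (I.card : ℝ) := by
    have h1 : (W₁ ×ˢ W₂).card ≤ I.card + bad.card := by
      rw [hI]
      exact card_le_card_sdiff_add_card
    rw [card_product] at h1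
    have h2 : (W₁.card : ℝ) * W₂.card ≤ I.card + bad.card := by exact_mod_cast h1
    rw [← hlam] at hw2
    linarith
  -- sizes
  have hDb : ∀ p ∈ W₁ ×ˢ W₂, (((p.1 * p.2) ^ m : ℕ) : ℝ) ≤ CD * B ^ (2 * m * ν) := by
    intro p hp
    rw [mem_product] at hp
    have a := (hW₁p p.1 hp.1).2.2.1
    have b := (hW₂p p.2 hp.2).2.2.1
    have a' : (p.1 : ℝ) ≤ 2 * N := by exact_mod_cast a
    have b' : (p.2 : ℝ) ≤ 2 * (2 * N) := by exact_mod_cast b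
    have hN0 : (0 : ℝ) ≤ N := by positivity
    have e : (32 * A₁ ^ 2) ^ m * B ^ (2 * (m : ℝ) * ν) = (32 * A₁ ^ 2 * (B ^ ν * B ^ ν)) ^ m := by
      rw [mul_pow _ (B ^ ν * B ^ ν) m, mul_pow (B ^ ν) (B ^ ν) m, ← Real.rpow_natCast (B ^ ν) m,
        ← Real.rpow_mul hB0.le, ← Real.rpow_add hB0]
      congr 2
      ring
    rw [hCD, e]
    push_cast
    refine pow_le_pow_left₀ (by positivity) ?_ _
    calc (p.1 : ℝ) * p.2 ≤ (2 * N) * (2 * (2 * N)) := mul_le_mul a' b' (by positivity) (by positivity)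
      _ = 8 * (N * N) := by ring
      _ ≤ 8 * ((2 * A₁ * B ^ ν) * (2 * A₁ * B ^ ν)) :=
        mul_le_mul_of_nonneg_left (mul_le_mul hNup hNup hN0 (by positivity)) (by norm_num)
      _ = 32 * A₁ ^ 2 * (B ^ ν * B ^ ν) := by ring
  -- the points of one pair
  have hpts : ∀ p : ℕ × ℕ, ∃ S : Finset (ℤ × ℤ), p ∈ I →
      c₀ * H ^ 2 / (CD * B ^ (2 * m * ν)) ≤ (S.card : ℝ) ∧ ∀ t ∈ S,
        (((p.1 * p.2) ^ m : ℕ) : ℤ) ∣ t.1 - ρ p * t.2 ∧ IsCoprime t.1 t.2 ∧ (Q : ℤ) ∣ t.1 - t₀.num ∧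
        (Q : ℤ) ∣ t.2 - t₀.den ∧ |(t.1 : ℝ) - H * t₀| ≤ η₂ * H ∧ |(t.2 : ℝ) - H| ≤ η₂ * H := by
    intro p
    by_cases hp : p ∈ I
    · have hp' := hp
      rw [hI, mem_sdiff] at hp'
      obtain ⟨hpW, hpb⟩ := hp'
      have hpW' := hpW
      rw [mem_product] at hpW'
      obtain ⟨a1, a2, -⟩ := hW₁p p.1 hpW'.1
      obtain ⟨b1, b2, -⟩ := hW₂p p.2 hpW'.2
      have hD := hDb p hpW
      have hD0 : (0 : ℝ) < (((p.1 * p.2) ^ m : ℕ) : ℝ) := by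
        have : 0 < (p.1 * p.2) ^ m := pow_pos (Nat.mul_pos a1.pos b1.pos) _
        exact_mod_cast this
      obtain ⟨S, hS, hSp⟩ := hpair p.1 p.2 (ρ p) lam H a1 b1 (by omega) (by omega) (by omega)
        (by omega) (by linarith) hHp (by
          intro x y hxy hne
          by_contra hlt
          push Not at hlt
          apply hpb
          rw [hbad, mem_filter]
          exact ⟨hpW, x, y, hne, hlt, hxy⟩) (by
          have h1 : C₀ * (((p.1 * p.2) ^ m : ℕ) : ℝ) ≤ C₀ * (CD * B ^ (2 * m * ν)) :=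
            mul_le_mul_of_nonneg_left hD hC₀.le
          refine h1.trans ?_
          have e : B ^ (2 * (m : ℝ) * ν - 1) = B ^ (2 * (m : ℝ) * ν) / B := by
            rw [Real.rpow_sub hB0, Real.rpow_one]
          have e2 : H * (CL * B ^ (2 * (m : ℝ) * ν - 1)) = C₀ * (CD * B ^ (2 * (m : ℝ) * ν)) := by
            rw [e, hH, hCL]
            field_simp
          rw [← e2, hlam, mul_add]
          linarith)
      refine ⟨S, fun _ => ⟨le_trans ?_ hS, hSp⟩⟩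
      exact div_le_div_of_nonneg_left (by positivity) hD0 hD
    · exact ⟨∅, fun h => absurd h hp⟩
  choose S hS using hpts
  refine ⟨I.biUnion S, ?_, ?_⟩
  · -- the count
    have hmult : ∀ x ∈ I.biUnion S, (I.filter (fun i => x ∈ S i)).card ≤ (K' + 1) ^ 2 := by
      intro t ht
      rw [mem_biUnion] at ht
      obtain ⟨p, hp, htp⟩ := ht
      obtain ⟨-, -, -, -, h5, h6⟩ := (hS p hp).2 t htp
      obtain ⟨hy1, hy2, hx1, htn⟩ := near_quot t.1 t.2 t₀ η₁ η₂ H hη₁ hη₂1 hη₂2 hHp h5 h6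
      have hyp : (0 : ℝ) < t.2 := by linarith
      have hyne : t.2 ≠ 0 := by
        have : (0 : ℤ) < t.2 := by exact_mod_cast hyp
        exact this.ne'
      have hGne : fv r f t.1 t.2 ≠ 0 := by
        intro h3
        apply hne _ htn
        have h5 : (fv r f t.1 t.2 : ℝ) = (t.2 : ℝ) ^ r * aeval ((t.1 : ℝ) / t.2) f := fv_eq le_rfl hyp.ne'
        rw [h3, Int.cast_zero] at h5
        exact (mul_eq_zero.1 h5.symm).resolve_left (pow_ne_zero _ hyp.ne')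
      have hFne : fv q f t.1 t.2 ≠ 0 := by
        rw [fv_ext f r q le_rfl hdq t.1 t.2 hyne]
        exact mul_ne_zero (pow_ne_zero _ hyne) hGne
      have hxB : |(t.1 : ℝ)| ≤ B := by rw [← hHT, hT]; exact hx1
      have hyB : |(t.2 : ℝ)| ≤ B := by
        rw [abs_of_pos hyp, ← hHT]
        exact hy2.trans (mul_le_mul_of_nonneg_right hT2 hHp.le)
      have hFb : |(fv q f t.1 t.2 : ℝ)| < (N : ℝ) ^ (K' + 1) := by
        refine lt_of_le_of_lt ?_ hFN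
        refine (fv_le _ _ _ _).trans ?_
        refine mul_le_mul (by rw [hCF]; linarith) (pow_le_pow_left₀
          (le_max_of_le_left (abs_nonneg _)) (max_le hxB hyB) _) (by positivity) (by linarith)
      have hsub : I.filter (fun i => t ∈ S i) ⊆
          (W₁.filter (fun l : ℕ => (l : ℤ) ∣ fv q f t.1 t.2)) ×ˢ
          (W₂.filter (fun l : ℕ => (l : ℤ) ∣ fv q f t.1 t.2)) := by
        intro p' hp'
        rw [mem_filter] at hp'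
        obtain ⟨hp'I, htp'⟩ := hp'
        have h7 := ((hS p' hp'I).2 t htp').1
        have hp'W : p' ∈ W₁ ×ˢ W₂ := by
          rw [hI, mem_sdiff] at hp'I
          exact hp'I.1
        have h8 := dvd_fv f _ _ _ _ h7 (hρ p' hp'W).2.2
        rw [← hr] at h8
        have h9 : (((p'.1 * p'.2) ^ m : ℕ) : ℤ) ∣ fv q f t.1 t.2 := by
          rw [fv_ext f r q le_rfl hdq t.1 t.2 hyne]
          exact h8.mul_left _
        have e1 : (p'.1 : ℤ) ∣ (((p'.1 * p'.2) ^ m : ℕ) : ℤ) := by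
          push_cast
          exact (dvd_mul_right _ _).trans (dvd_pow_self _ (by omega))
        have e2 : (p'.2 : ℤ) ∣ (((p'.1 * p'.2) ^ m : ℕ) : ℤ) := by
          push_cast
          exact (dvd_mul_left _ _).trans (dvd_pow_self _ (by omega))
        rw [mem_product] at hp'W
        exact mem_product.2 ⟨mem_filter.2 ⟨hp'W.1, e1.trans h9⟩, mem_filter.2 ⟨hp'W.2, e2.trans h9⟩⟩
      refine (card_le_card hsub).trans ?_
      rw [card_product, sq]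
      refine Nat.mul_le_mul ?_ ?_
      · refine (few_primes _ hFne N K' hFb _ ?_).trans (Nat.le_succ _)
        intro l hl
        rw [mem_filter] at hl
        exact ⟨(hW₁p l hl.1).1, (hW₁p l hl.1).2.1, hl.2⟩
      · refine (few_primes _ hFne N K' hFb _ ?_).trans (Nat.le_succ _)
        intro l hl
        rw [mem_filter] at hl
        exact ⟨(hW₂p l hl.1).1, by have := (hW₂p l hl.1).2.1; omega, hl.2⟩
    have hU := union_card I S ((K' + 1) ^ 2) hmult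
    have hU' : ∑ i ∈ I, ((S i).card : ℝ) ≤ ((K' + 1 : ℕ) : ℝ) ^ 2 * ((I.biUnion S).card : ℝ) := by
      exact_mod_cast hU
    have hsum : (I.card : ℝ) * (c₀ * H ^ 2 / (CD * B ^ (2 * m * ν))) ≤ ∑ i ∈ I, ((S i).card : ℝ) := by
      rw [← nsmul_eq_mul, ← sum_const]
      exact sum_le_sum fun p hp => (hS p hp).1
    have h1 : (c₃ / 2 * B ^ (2 * ν - d)) * (c₀ * H ^ 2 / (CD * B ^ (2 * m * ν))) ≤
        ((K' + 1 : ℕ) : ℝ) ^ 2 * ((I.biUnion S).card : ℝ) :=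
      (mul_le_mul_of_nonneg_right hIc (by positivity)).trans (hsum.trans hU')
    have e : B ^ (2 - 2 * ((m : ℝ) - 1) * ν - d) = B ^ (2 * ν - d) * B ^ 2 / B ^ (2 * (m : ℝ) * ν) := by
      rw [← Real.rpow_natCast, ← Real.rpow_add hB0, ← Real.rpow_sub hB0]
      congr 1
      push_cast
      ring
    have hK2 : (0 : ℝ) < ((K' + 1 : ℕ) : ℝ) ^ 2 := by positivity
    have h2 : ((K' + 1 : ℕ) : ℝ) ^ 2 * (c₀ * c₃ / (2 * (K' + 1 : ℕ) ^ 2 * CD * T ^ 2) *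
        B ^ (2 - 2 * ((m : ℝ) - 1) * ν - d)) ≤ ((K' + 1 : ℕ) : ℝ) ^ 2 * ((I.biUnion S).card : ℝ) := by
      refine le_trans (le_of_eq ?_) h1
      rw [e, hH]
      field_simp
    exact le_of_mul_le_mul_left h2 hK2
  · intro t ht
    rw [mem_biUnion] at ht
    obtain ⟨p, hp, htp⟩ := ht
    obtain ⟨h1, h2, h3, h4, h5, h6⟩ := (hS p hp).2 t htp
    obtain ⟨hy1, hy2, hx1, htn⟩ := near_quot t.1 t.2 t₀ η₁ η₂ H hη₁ hη₂1 hη₂2 hHp h5 h6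
    have hyp : (0 : ℝ) < t.2 := by linarith
    have hy0 : (0 : ℤ) < t.2 := by exact_mod_cast hyp
    have hyne : t.2 ≠ 0 := hy0.ne'
    have hGne : fv r f t.1 t.2 ≠ 0 := by
      intro h3
      apply hne _ htn
      have h5 : (fv r f t.1 t.2 : ℝ) = (t.2 : ℝ) ^ r * aeval ((t.1 : ℝ) / t.2) f := fv_eq le_rfl hyp.ne'
      rw [h3, Int.cast_zero] at h5
      exact (mul_eq_zero.1 h5.symm).resolve_left (pow_ne_zero _ hyp.ne')
    have hFne : fv q f t.1 t.2 ≠ 0 := by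
      rw [fv_ext f r q le_rfl hdq t.1 t.2 hyne]
      exact mul_ne_zero (pow_ne_zero _ hyne) hGne
    have hxB : |(t.1 : ℝ)| ≤ B := by rw [← hHT, hT]; exact hx1
    have hyB : |(t.2 : ℝ)| ≤ B := by
      rw [abs_of_pos hyp, ← hHT]
      exact hy2.trans (mul_le_mul_of_nonneg_right hT2 hHp.le)
    have hpW : p ∈ W₁ ×ˢ W₂ := by
      rw [hI, mem_sdiff] at hp
      exact hp.1
    have h8 := dvd_fv f _ _ _ _ h1 (hρ p hpW).2.2
    rw [← hr] at h8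
    have h9 : (((p.1 * p.2) ^ m : ℕ) : ℤ) ∣ fv q f t.1 t.2 := by
      rw [fv_ext f r q le_rfl hdq t.1 t.2 hyne]
      exact h8.mul_left _
    obtain ⟨k, hk⟩ := h9
    rw [mem_product] at hpW
    obtain ⟨a1, a2, -⟩ := hW₁p p.1 hpW.1
    obtain ⟨b1, b2, -⟩ := hW₂p p.2 hpW.2
    refine ⟨h2, hy0, htn.trans_le hη₁', h3, h4, max_le hxB hyB, hFne, ((p.1 * p.2 : ℕ) : ℤ), k, ?_, ?_, ?_⟩
    · exact_mod_cast Nat.mul_pos a1.pos b1.pos
    · rw [hk]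
      push_cast
      ring
    · have hN1 : A₁ * B ^ ν ≤ (p.1 : ℝ) := hNlo.trans (by exact_mod_cast a2.le)
      have hN2 : A₁ * B ^ ν ≤ (p.2 : ℝ) := hNlo.trans (by
        have : N ≤ p.2 := by omega
        exact_mod_cast this)
      have hABν : 0 < A₁ * B ^ ν := by positivity
      have h10 : (A₁ * B ^ ν) * (A₁ * B ^ ν) ≤ (p.1 : ℝ) * p.2 :=
        mul_le_mul hN1 hN2 hABν.le (by positivity)
      have h11 : A₁ * (B ^ ν * B ^ ν) ≤ (p.1 : ℝ) * p.2 := by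
        refine le_trans ?_ h10
        have : 0 < B ^ ν * B ^ ν := by positivity
        calc A₁ * (B ^ ν * B ^ ν) ≤ A₁ * A₁ * (B ^ ν * B ^ ν) :=
              mul_le_mul_of_nonneg_right (le_mul_of_one_le_left (by linarith) hA₁1) this.le
          _ = _ := by ring
      have h13 : 0 ≤ A₁ * (B ^ ν * B ^ ν) := mul_nonneg (by linarith) (by positivity)
      obtain ⟨m', rfl⟩ : ∃ m', m = m' + 2 := ⟨m - 2, by omega⟩
      have h12 : A * B ^ (2 * (((m' + 2 : ℕ) : ℝ) - 1) * ν) ≤ (A₁ * (B ^ ν * B ^ ν)) ^ (m' + 1) := by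
        have e : B ^ (2 * (((m' + 2 : ℕ) : ℝ) - 1) * ν) = (B ^ ν * B ^ ν) ^ (m' + 1) := by
          rw [mul_pow, ← Real.rpow_natCast (B ^ ν) (m' + 1), ← Real.rpow_mul hB0.le,
            ← Real.rpow_add hB0]
          congr 1
          push_cast
          ring
        rw [e, mul_pow A₁ (B ^ ν * B ^ ν)]
        refine mul_le_mul_of_nonneg_right (hAA₁.trans ?_) (by positivity)
        exact le_self_pow₀ hA₁1 (by omega)
      have e2 : m' + 2 - 1 = m' + 1 := rfl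
      rw [e2]
      refine h12.trans ?_
      push_cast
      exact pow_le_pow_left₀ h13 h11 _

end Pool.Agent.H461.Cyc
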