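import Pool.Agent.H461.Cyc.Fac
import Pool.Agent.H461.Cyc.Lat2

/-!
# The points attached to one pair of primes
-/

set_option autoImplicit false

namespace Pool.Agent.H461.Cyc

open Finset Polynomial
open Pool.Agent.Y670.RD Pool.Agent.H461.Fam Pool.Agent.H461.Low

/-- a class of residues -/
theorem class_two (Q D : ℕ) (hDQ : Nat.Coprime D Q) (ρ u₀ v₀ : ℤ) (huv : IsCoprime u₀ v₀) :
    ∃ zs : ℤ, (∀ p : ℕ, p.Prime → p ∣ Q → ¬ ((p : ℤ) ∣ zs ∧ (p : ℤ) ∣ v₀)) ∧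
      ∀ x y z : ℤ, x = D * z + ρ * y → (Q : ℤ) ∣ z - zs → (Q : ℤ) ∣ y - v₀ → (Q : ℤ) ∣ x - u₀ := by
  obtain ⟨a, b, hab⟩ : IsCoprime (D : ℤ) (Q : ℤ) := Nat.isCoprime_iff_coprime.2 hDQ
  refine ⟨a * (u₀ - ρ * v₀), ?_, ?_⟩
  · rintro p hp hpQ ⟨h1, h2⟩
    have hpI : Prime (p : ℤ) := Nat.prime_iff_prime_int.1 hp
    have hpa : ¬ (p : ℤ) ∣ a := by
      intro h3
      apply hpI.not_isUnit
      rw [isUnit_iff_dvd_one, ← hab]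
      exact dvd_add (h3.mul_right _) ((Int.natCast_dvd_natCast.2 hpQ).mul_left _)
    have h3 := (hpI.dvd_or_dvd h1).resolve_left hpa
    have h4 : (p : ℤ) ∣ u₀ := by
      have := dvd_add h3 (h2.mul_left ρ)
      rwa [sub_add_cancel] at this
    obtain ⟨c, d, hcd⟩ := huv
    apply hpI.not_isUnit
    rw [isUnit_iff_dvd_one, ← hcd]
    exact dvd_add (h4.mul_left _) (h2.mul_left _)
  · rintro x y z rfl ⟨s, hs⟩ ⟨t, ht⟩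
    have hz : z = Q * s + a * (u₀ - ρ * v₀) := by linarith
    have hy : y = Q * t + v₀ := by linarith
    refine ⟨D * s + ρ * t - b * (u₀ - ρ * v₀), ?_⟩
    rw [hz, hy]
    linear_combination (u₀ - ρ * v₀) * hab

theorem one_pair (Q : ℕ) (hQ : 1 ≤ Q) (t₀ : ℚ) (η : ℝ) (hη : 0 < η) (m : ℕ) :
    ∃ C₀ c₀ : ℝ, 0 < C₀ ∧ 0 < c₀ ∧ ∀ (p₁ p₂ : ℕ) (ρ : ℤ) (lam H : ℝ), p₁.Prime → p₂.Prime →
      64 ≤ p₁ → 64 ≤ p₂ → Q < p₁ → Q < p₂ → 0 < lam → 0 < H →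
      (∀ x y : ℤ, (((p₁ * p₂) ^ m : ℕ) : ℤ) ∣ x - ρ * y → ¬ (x = 0 ∧ y = 0) →
        lam ≤ max |(x : ℝ)| |(y : ℝ)|) →
      C₀ * (((p₁ * p₂) ^ m : ℕ) : ℝ) ≤ H * lam → ∃ S : Finset (ℤ × ℤ),
        c₀ * H ^ 2 / (((p₁ * p₂) ^ m : ℕ) : ℝ) ≤ (S.card : ℝ) ∧ ∀ t ∈ S,
        (((p₁ * p₂) ^ m : ℕ) : ℤ) ∣ t.1 - ρ * t.2 ∧ IsCoprime t.1 t.2 ∧ (Q : ℤ) ∣ t.1 - t₀.num ∧
        (Q : ℤ) ∣ t.2 - t₀.den ∧ |(t.1 : ℝ) - H * t₀| ≤ η * H ∧ |(t.2 : ℝ) - H| ≤ η * H := by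
  obtain ⟨C₀, c₀, hC₀, hc₀, hlat⟩ := lat_count2 Q hQ t₀ 1 η hη
  refine ⟨C₀, c₀, hC₀, hc₀, ?_⟩
  intro p₁ p₂ ρ lam H hp₁ hp₂ h64₁ h64₂ hQ₁ hQ₂ hlam hH hmin hC
  have hD1 : 1 ≤ (p₁ * p₂) ^ m := Nat.one_le_pow _ _ (Nat.mul_pos hp₁.pos hp₂.pos)
  have hnd₁ : ¬ p₁ ∣ Q := fun h => by
    have := Nat.le_of_dvd (by omega) h
    omega
  have hnd₂ : ¬ p₂ ∣ Q := fun h => by
    have := Nat.le_of_dvd (by omega) h
    omega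
  have hDQ : Nat.Coprime ((p₁ * p₂) ^ m) Q := by
    apply Nat.Coprime.pow_left
    exact Nat.Coprime.mul_left ((hp₁.coprime_iff_not_dvd).2 hnd₁) ((hp₂.coprime_iff_not_dvd).2 hnd₂)
  obtain ⟨zs, hzs, hcls⟩ := class_two Q ((p₁ * p₂) ^ m) hDQ ρ t₀.num t₀.den
    (by rw [Int.isCoprime_iff_gcd_eq_one]; exact t₀.reduced)
  obtain ⟨S, hS, hSp⟩ := hlat ((p₁ * p₂) ^ m) ρ zs t₀.den lam H p₁ p₂ hD1 hlam hH hp₁ hp₂ h64₁ h64₂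
    hnd₁ hnd₂ hzs (fun z y hzy => short_vec _ hD1 ρ _ hlam.le hmin z y hzy) hC
  refine ⟨S, hS, fun t ht => ?_⟩
  obtain ⟨z, hx, hzy, hzs', hys, h1, h2, h3, h4⟩ := hSp t ht
  refine ⟨by rw [hx, add_sub_cancel_right]; exact dvd_mul_right _ _, ?_, hcls t.1 t.2 z hx hzs' hys,
    hys, h1, by rw [mul_one] at h2; exact h2⟩
  rw [Int.isCoprime_iff_gcd_eq_one]
  by_contra hg
  obtain ⟨l, hl, hld⟩ := Nat.exists_prime_and_dvd hg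
  have hlI : Prime (l : ℤ) := Nat.prime_iff_prime_int.1 hl
  have hlx : (l : ℤ) ∣ t.1 := (Int.natCast_dvd_natCast.2 hld).trans (Int.gcd_dvd_left _ _)
  have hly : (l : ℤ) ∣ t.2 := (Int.natCast_dvd_natCast.2 hld).trans (Int.gcd_dvd_right _ _)
  have h5 : (l : ℤ) ∣ (((p₁ * p₂) ^ m : ℕ) : ℤ) * z := by
    have := dvd_sub hlx (hly.mul_left ρ)
    rwa [hx, add_sub_cancel_right] at this
  rcases hlI.dvd_or_dvd h5 with h6 | h6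
  · have h7 : l ∣ (p₁ * p₂) ^ m := Int.natCast_dvd_natCast.1 h6
    rcases (hl.dvd_mul).1 (hl.dvd_of_dvd_pow h7) with h8 | h8
    · have := (Nat.prime_dvd_prime_iff_eq hl hp₁).1 h8
      rw [this] at hly
      exact h3 hly
    · have := (Nat.prime_dvd_prime_iff_eq hl hp₂).1 h8
      rw [this] at hly
      exact h4 hly
  · obtain ⟨a, b, hab⟩ := hzy
    apply hlI.not_isUnit
    rw [isUnit_iff_dvd_one, ← hab]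
    exact dvd_add (h6.mul_left _) (hly.mul_left _)

end Pool.Agent.H461.Cyc
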