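import Pool.Graph.R_seed8.H484R2.Pit
import Pool.Agent.H461.Fam.Sup

/-!
# Many primes modulo which a polynomial has a root
-/

set_option autoImplicit false

namespace Pool.Agent.H461.Cyc

open NumberField Finset Polynomial Filter Topology Module
open Pool.Agent.Y670.RD Pool.Agent.H461.Fam

/-- the prime ideal theorem in intervals -/
theorem window (K : Type) [Field K] [NumberField K] : ∃ c : ℝ, 0 < c ∧ ∃ N₀ : ℕ, ∀ N : ℕ, N₀ ≤ N →
    c * N ≤ Real.log N * (((Ioc N (2 * N)).filter fun p => p.Prime ∧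
      Nat.card (𝓞 K →+* ZMod p) ≠ 0).card : ℝ) := by
  classical
  have hT := H332.PIT.TT_tendsto (K := K) (Pool.Agent.H484R2.continuation K)
  have hT2 : Tendsto (fun N : ℕ => H332.PIT.TT K (2 * N) / ((2 * N : ℕ) : ℝ)) atTop (𝓝 1) :=
    hT.comp (tendsto_id.const_mul_atTop' (by norm_num : 0 < 2))
  have h1 := hT.eventually (gt_mem_nhds (by norm_num : (1 : ℝ) < 9 / 8))
  have h2 := hT2.eventually (lt_mem_nhds (by norm_num : (7 / 8 : ℝ) < 1))
  obtain ⟨N₁, hN₁⟩ := eventually_atTop.1 (h1.and h2)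
  set d : ℝ := (finrank ℚ K : ℝ) with hd
  have hd0 : 0 < d := by rw [hd]; exact_mod_cast Module.finrank_pos
  refine ⟨1 / (4 * d), by positivity, max N₁ 2, fun N hN => ?_⟩
  obtain ⟨a1, a2⟩ := hN₁ N ((le_max_left _ _).trans hN)
  have hN2 : 2 ≤ N := (le_max_right _ _).trans hN
  have hNR : (2 : ℝ) ≤ N := by exact_mod_cast hN2
  have hN0 : (0 : ℝ) < N := by linarith
  rw [div_lt_iff₀ hN0] at a1
  rw [lt_div_iff₀ (by push_cast; linarith)] at a2
  push_cast at a2
  have hlogN : 0 < Real.log N := Real.log_pos (by linarith)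
  have hlog2 : Real.log (2 * N) ≤ 2 * Real.log N := by
    rw [Real.log_mul (by norm_num) hN0.ne']
    have := Real.log_le_log (by norm_num) hNR
    linarith
  set W := (Ioc N (2 * N)).filter fun p => p.Prime ∧ Nat.card (𝓞 K →+* ZMod p) ≠ 0 with hW
  have hdiff : H332.PIT.TT K (2 * N) - H332.PIT.TT K N =
      ∑ p ∈ (Ioc N (2 * N)).filter Nat.Prime, (Nat.card (𝓞 K →+* ZMod p) : ℝ) * Real.log p := by
    unfold H332.PIT.TT
    have e : (range (2 * N + 1)).filter Nat.Prime =
        (range (N + 1)).filter Nat.Prime ∪ (Ioc N (2 * N)).filter Nat.Prime := by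
      ext p
      simp only [mem_filter, mem_range, mem_union, mem_Ioc]
      constructor
      · rintro ⟨h1, h2⟩
        by_cases h : p < N + 1
        · left; exact ⟨h, h2⟩
        · right; exact ⟨⟨by omega, by omega⟩, h2⟩
      · rintro (⟨h1, h2⟩ | ⟨⟨h1, h3⟩, h2⟩)
        · exact ⟨by omega, h2⟩
        · exact ⟨by omega, h2⟩
    rw [e, sum_union]
    · ring
    · rw [disjoint_left]
      intro p hp hp'
      rw [mem_filter, mem_range] at hp
      rw [mem_filter, mem_Ioc] at hp'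
      omega
  have hle : ∑ p ∈ (Ioc N (2 * N)).filter Nat.Prime,
      (Nat.card (𝓞 K →+* ZMod p) : ℝ) * Real.log p ≤ ∑ p ∈ W, d * (2 * Real.log N) := by
    have e : ∑ p ∈ (Ioc N (2 * N)).filter Nat.Prime,
        (Nat.card (𝓞 K →+* ZMod p) : ℝ) * Real.log p =
        ∑ p ∈ W, (Nat.card (𝓞 K →+* ZMod p) : ℝ) * Real.log p := by
      symm
      refine sum_subset ?_ ?_
      · intro p hp
        rw [hW, mem_filter] at hp
        rw [mem_filter]
        exact ⟨hp.1, hp.2.1⟩
      · intro p hp hp'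
        rw [mem_filter] at hp
        rw [hW, mem_filter] at hp'
        have : Nat.card (𝓞 K →+* ZMod p) = 0 := by
          by_contra h
          exact hp' ⟨hp.1, hp.2, h⟩
        rw [this, Nat.cast_zero, zero_mul]
    rw [e]
    refine sum_le_sum fun p hp => ?_
    rw [hW, mem_filter, mem_Ioc] at hp
    have h1 : (Nat.card (𝓞 K →+* ZMod p) : ℝ) ≤ d := H332.PIT.hc_cast_le hp.2.1
    have h2 : Real.log p ≤ 2 * Real.log N := by
      refine le_trans (Real.log_le_log (by exact_mod_cast hp.2.1.pos) ?_) hlog2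
      exact_mod_cast hp.1.2
    exact mul_le_mul h1 h2 (Real.log_nonneg (by exact_mod_cast hp.2.1.one_lt.le)) hd0.le
  rw [sum_const, nsmul_eq_mul] at hle
  rw [← hdiff] at hle
  have h5 : (N : ℝ) / 2 ≤ (W.card : ℝ) * (d * (2 * Real.log N)) := by linarith
  calc 1 / (4 * d) * (N : ℝ) = (N / 2) / (2 * d) := by
        field_simp
        ring
    _ ≤ ((W.card : ℝ) * (d * (2 * Real.log N))) / (2 * d) :=
        div_le_div_of_nonneg_right h5 (by positivity)
    _ = Real.log N * (W.card : ℝ) := by field_simp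

/-- a homomorphism to `ZMod p` gives a root -/
theorem root_of_hom (g : ℤ[X]) (K : Type) [Field K] [NumberField K] (θ : K)
    (hθ : aeval θ g = 0) (p : ℕ) (hp : p.Prime) (hpa : ¬ (p : ℤ) ∣ g.leadingCoeff)
    (φ : 𝓞 K →+* ZMod p) : ∃ r : ℤ, (p : ℤ) ∣ g.eval r := by
  have hpF : Fact p.Prime := ⟨hp⟩
  set a : ℤ := g.leadingCoeff with ha
  have hint : IsIntegral ℤ ((a : K) * θ) := by
    have := isIntegral_leadingCoeff_smul g θ hθ
    rwa [zsmul_eq_mul] at this
  set α : 𝓞 K := ⟨(a : K) * θ, hint⟩ with hα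
  have h1 : ∑ i ∈ range (g.natDegree + 1),
      ((g.coeff i : ℤ) : 𝓞 K) * α ^ i * ((a : ℤ) : 𝓞 K) ^ (g.natDegree - i) = 0 := by
    apply RingOfIntegers.ext
    change algebraMap (𝓞 K) K _ = algebraMap (𝓞 K) K 0
    rw [map_sum, map_zero]
    have e : ∀ i ∈ range (g.natDegree + 1), algebraMap (𝓞 K) K
        (((g.coeff i : ℤ) : 𝓞 K) * α ^ i * ((a : ℤ) : 𝓞 K) ^ (g.natDegree - i)) =
        (a : K) ^ g.natDegree * ((g.coeff i : K) * θ ^ i) := by
      intro i hi
      rw [mem_range] at hi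
      have e1 : algebraMap (𝓞 K) K α = (a : K) * θ := rfl
      have e2 : (a : K) ^ g.natDegree = (a : K) ^ i * (a : K) ^ (g.natDegree - i) := by
        rw [← pow_add]
        congr 1
        omega
      rw [map_mul, map_mul, map_pow, map_pow, map_intCast, map_intCast, e1, e2]
      ring
    rw [sum_congr rfl e, ← mul_sum]
    have e3 : ∑ i ∈ range (g.natDegree + 1), (g.coeff i : K) * θ ^ i = aeval θ g := by
      rw [aeval_eq_sum_range]
      refine sum_congr rfl fun i _ => ?_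
      rw [zsmul_eq_mul]
    rw [e3, hθ, mul_zero]
  have h2 := congrArg φ h1
  rw [map_sum, map_zero] at h2
  have ha0 : (a : ZMod p) ≠ 0 := by
    rw [Ne, ZMod.intCast_zmod_eq_zero_iff_dvd]
    exact hpa
  set s : ZMod p := φ α / a with hs
  obtain ⟨r, hr⟩ := ZMod.intCast_surjective s
  refine ⟨r, ?_⟩
  rw [← ZMod.intCast_zmod_eq_zero_iff_dvd, eval_eq_sum_range]
  push_cast
  have e4 : ∀ i ∈ range (g.natDegree + 1), φ
      (((g.coeff i : ℤ) : 𝓞 K) * α ^ i * ((a : ℤ) : 𝓞 K) ^ (g.natDegree - i)) =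
      (a : ZMod p) ^ g.natDegree * ((g.coeff i : ZMod p) * (r : ZMod p) ^ i) := by
    intro i hi
    rw [mem_range] at hi
    have e2 : (a : ZMod p) ^ g.natDegree = (a : ZMod p) ^ i * (a : ZMod p) ^ (g.natDegree - i) := by
      rw [← pow_add]
      congr 1
      omega
    rw [map_mul, map_mul, map_pow, map_pow, map_intCast, map_intCast, e2, hr, hs, div_pow]
    field_simp
  rw [sum_congr rfl e4, ← mul_sum] at h2
  exact (mul_eq_zero.1 h2).resolve_left (pow_ne_zero _ ha0)

/-- many primes modulo which an irreducible polynomial has a root -/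
theorem many_primes (g : ℤ[X]) (hg : Irreducible (g.map (Int.castRingHom ℚ))) (M : ℕ)
    (hM : 1 ≤ M) : ∃ c : ℝ, 0 < c ∧ ∃ N₀ : ℕ, ∀ N : ℕ, N₀ ≤ N → ∃ W : Finset ℕ,
      c * N ≤ Real.log N * (W.card : ℝ) ∧ ∀ p ∈ W, p.Prime ∧ N < p ∧ p ≤ 2 * N ∧ ¬ p ∣ M ∧
        ∃ r : ℤ, (p : ℤ) ∣ g.eval r := by
  classical
  have hF : Fact (Irreducible (g.map (Int.castRingHom ℚ))) := ⟨hg⟩
  have : FiniteDimensional ℚ (AdjoinRoot (g.map (Int.castRingHom ℚ))) :=
    (AdjoinRoot.powerBasis hg.ne_zero).finite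
  have : NumberField (AdjoinRoot (g.map (Int.castRingHom ℚ))) :=
    { to_charZero := charZero_of_injective_algebraMap
        (algebraMap ℚ (AdjoinRoot (g.map (Int.castRingHom ℚ)))).injective
      to_finiteDimensional := inferInstance }
  obtain ⟨c, hc, N₀, h⟩ := window (AdjoinRoot (g.map (Int.castRingHom ℚ)))
  have hθ : aeval (AdjoinRoot.root (g.map (Int.castRingHom ℚ))) g = 0 := by
    have h1 := AdjoinRoot.eval₂_root (g.map (Int.castRingHom ℚ))
    rw [eval₂_map] at h1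
    rw [aeval_def]
    have e : algebraMap ℤ (AdjoinRoot (g.map (Int.castRingHom ℚ))) =
      (AdjoinRoot.of (g.map (Int.castRingHom ℚ))).comp (Int.castRingHom ℚ) := RingHom.ext_int _ _
    rw [e]
    exact h1
  have hlead : g.leadingCoeff ≠ 0 := by
    rw [Ne, leadingCoeff_eq_zero]
    rintro h0
    rw [h0, Polynomial.map_zero] at hg
    exact hg.ne_zero rfl
  refine ⟨c, hc, max N₀ (max M g.leadingCoeff.natAbs), fun N hN => ?_⟩
  refine ⟨_, h N ((le_max_left _ _).trans hN), fun p hp => ?_⟩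
  rw [mem_filter, mem_Ioc] at hp
  obtain ⟨⟨h1, h2⟩, h3, h4⟩ := hp
  have h5 : M < p := lt_of_le_of_lt (((le_max_left _ _).trans (le_max_right _ _)).trans hN) h1
  have h6 : g.leadingCoeff.natAbs < p :=
    lt_of_le_of_lt (((le_max_right _ _).trans (le_max_right _ _)).trans hN) h1
  refine ⟨h3, h1, h2, fun h7 => ?_, ?_⟩
  · have := Nat.le_of_dvd (by omega) h7
    omega
  · obtain ⟨φ⟩ : Nonempty (𝓞 (AdjoinRoot (g.map (Int.castRingHom ℚ))) →+* ZMod p) := by
      by_contra hne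
      rw [not_nonempty_iff] at hne
      exact h4 Nat.card_of_isEmpty
    refine root_of_hom g _ _ hθ p h3 (fun h7 => ?_) φ
    have h8 : p ∣ g.leadingCoeff.natAbs := by exact_mod_cast Int.natCast_dvd.1 h7
    have := Nat.le_of_dvd (Int.natAbs_pos.2 hlead) h8
    omega

end Pool.Agent.H461.Cyc
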